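import Pool.Agent.Lib.MP_b685ef_ag.PS.SUB

/-!
MP_b685ef_ag, power saving for all l: sublevel sets, uniform in the function.
-/

open Finset MPb685ZO MPb685PS MPb685PS.SUB

namespace MPb685PA

/-- functions of a finite-dimensional space are determined on `Z` by their values at finitely
many points of `Z` -/
theorem exists_interp {X K : Type*} [Field K] (E : Submodule K (X → K)) [FiniteDimensional K E]
    (Z : Set X) (Y : Finset X)
    (hY : ∀ f ∈ E, (∀ y ∈ Y, f y = 0) → ∀ z ∈ Z, f z = 0) :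
    ∃ e : X → X → K, (∀ y, e y ∈ E) ∧ ∀ f ∈ E, ∀ z ∈ Z, f z = ∑ y ∈ Y, f y * e y z := by
  classical
  let ev : E →ₗ[K] (Y → K) :=
    { toFun := fun f y => f.1 y
      map_add' := fun _ _ => rfl
      map_smul' := fun _ _ => rfl }
  obtain ⟨t, ht⟩ := ev.rangeRestrict.exists_rightInverse_of_surjective
    (LinearMap.range_eq_top.2 ev.surjective_rangeRestrict)
  obtain ⟨s, hs⟩ := LinearMap.exists_extend t
  have hev : ∀ f : E, ev (s (ev f)) = ev f := by
    intro f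
    have h1 : s (ev f) = t (ev.rangeRestrict f) := by
      rw [← hs]; rfl
    have h2 := congrArg (fun φ => (φ (ev.rangeRestrict f) : LinearMap.range ev)) ht
    have h3 : ev.rangeRestrict (t (ev.rangeRestrict f)) = ev.rangeRestrict f := h2
    rw [h1]
    exact congrArg Subtype.val h3
  refine ⟨fun y => if h : y ∈ Y then (s (Pi.single (⟨y, h⟩ : Y) 1)).1 else 0, ?_, ?_⟩
  · intro y
    by_cases h : y ∈ Y
    · simp only [h, dif_pos]
      exact (s _).2
    · simp only [h, dif_neg, not_false_eq_true]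
      exact E.zero_mem
  · intro f hf z hz
    have h1 := hY (f - (s (ev ⟨f, hf⟩)).1) (E.sub_mem hf (s _).2) (by
      intro y hy
      have h2 := congrFun (hev ⟨f, hf⟩) ⟨y, hy⟩
      have h3 : (s (ev ⟨f, hf⟩)).1 y = f y := h2
      rw [Pi.sub_apply, h3, sub_self]) z hz
    rw [Pi.sub_apply, sub_eq_zero] at h1
    rw [h1]
    have h4 : ev ⟨f, hf⟩ = ∑ y : Y, f y • (Pi.single y 1 : Y → K) := by
      ext y
      rw [Finset.sum_apply, Finset.sum_eq_single y]
      · simp [ev]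
      · intro y' _ hne
        simp [hne.symm]
      · intro h
        exact absurd (Finset.mem_univ y) h
    rw [h4, map_sum]
    have h5 : ∀ (T : Finset Y), ((∑ y ∈ T, s (f y • (Pi.single y 1 : Y → K)) : E) : X → K) z =
        ∑ y ∈ T, f y * (s (Pi.single y 1)).1 z := by
      intro T
      induction T using Finset.induction_on with
      | empty => simp
      | insert a T ha ih =>
        rw [Finset.sum_insert ha, Finset.sum_insert ha, Submodule.coe_add, Pi.add_apply, ih]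
        simp
    rw [h5, ← Finset.sum_coe_sort Y]
    refine Finset.sum_congr rfl fun y _ => ?_
    simp

theorem specUSUB {ℓ : ℕ} [Fact ℓ.Prime] {K : Type*} [NontriviallyNormedField K]
    [NormedAlgebra ℚ_[ℓ] K] [IsUltrametricDist K]
    {Γ : Type*} [Group Γ] [TopologicalSpace Γ] [IsTopologicalGroup Γ] [CompactSpace Γ]
    (E : Submodule K (Γ → K)) [FiniteDimensional K E] (hcont : ∀ f ∈ E, Continuous f)
    (hleft : ∀ f ∈ E, ∀ x : Γ, (fun y => f (x * y)) ∈ E)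
    (U0 : Subgroup Γ)
    (hsta : ∀ f ∈ E, ∀ g : Γ, (∃ u ∈ U0, f (g * u) ≠ 0) → ∀ O : Set Γ, IsOpen O → (1 : Γ) ∈ O →
      ∃ u ∈ U0, u ∈ O ∧ f (g * u) ≠ 0) :
    ∃ (Y : Finset Γ) (κ C : ℕ) (L : ℝ), 0 < L ∧ (∀ y ∈ Y, y ∈ U0) ∧
      (∀ f ∈ E, ∀ h : Γ, ∀ u ∈ U0, ‖f (h * u)‖ ≤ L * ∑ y ∈ Y, ‖f (h * y)‖) ∧
      ∀ f ∈ E, ∀ g : Γ, ∀ c : ℝ, 0 < c →
        (∀ h : Γ, g⁻¹ * h ∈ U0 → ((Y.card : ℝ) + 1) * c ≤ ∑ y ∈ Y, ‖f (h * y)‖) →
        ∀ t : ℕ, ∀ (N : Subgroup Γ) [N.Normal] [N.FiniteIndex],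
          ∀ A : Set (Γ ⧸ N), A ⊆ QuotientGroup.mk '' {h : Γ | g⁻¹ * h ∈ U0} →
            (∀ h : Γ, g⁻¹ * h ∈ U0 → (h : Γ ⧸ N) ∈ A → ‖f h‖ ≤ c * ((ℓ : ℝ) ^ (κ * t))⁻¹) →
            A.ncard * ℓ ^ t ≤ C * ((QuotientGroup.mk '' (U0 : Set Γ)) : Set (Γ ⧸ N)).ncard := by
  classical
  have hℓ : Fact ℓ.Prime := inferInstance
  have hK : ∀ m : ℤ, ‖(m : K)‖ = ‖(m : ℚ_[ℓ])‖ := by
    intro m
    rw [← map_intCast (algebraMap ℚ_[ℓ] K) m, norm_algebraMap']
  have hl0 : (0 : ℝ) < ℓ := by exact_mod_cast hℓ.out.pos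
  set r := Module.finrank K E with hrdef
  set b : Module.Basis (Fin r) K E := Module.finBasis K E with hb
  set O : Set Γ := {u : Γ | ∀ i j, ‖LinearMap.toMatrix b b (tr E hleft u) i j
      - (1 : Matrix (Fin r) (Fin r) K) i j‖ < ((ℓ : ℝ) ^ (r + 1))⁻¹} with hO
  have hOo : IsOpen O := isOpen_near E hcont hleft b _
  have hO1 : (1 : Γ) ∈ O := by
    intro i j
    rw [tr_one, LinearMap.toMatrix_one, sub_self, norm_zero]
    positivity
  obtain ⟨Y, hYsub, hY⟩ := exists_sep E ((U0 : Set Γ) ∩ O)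
  have hYU : ∀ f ∈ E, (∀ y ∈ Y, f y = 0) → ∀ z ∈ (U0 : Set Γ), f z = 0 := by
    intro f hf hfY z hz
    by_contra hne
    obtain ⟨u, hu, huO, hfu⟩ := hsta f hf 1 ⟨z, hz, by rwa [one_mul]⟩ O hOo hO1
    rw [one_mul] at hfu
    exact hfu (hY f hf hfY u ⟨hu, huO⟩)
  obtain ⟨e, heE, he⟩ := exists_interp E (U0 : Set Γ) Y hYU
  -- a bound for the functions `e y`
  obtain ⟨L, hL0, hL⟩ : ∃ L : ℝ, 0 < L ∧ ∀ y ∈ Y, ∀ x, ‖e y x‖ ≤ L := by
    have h1 : ∀ y, ∃ B : ℝ, ∀ x, ‖e y x‖ ≤ B := by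
      intro y
      obtain ⟨B, hB⟩ := isCompact_univ.exists_bound_of_continuousOn
        (hcont _ (heE y)).continuousOn
      exact ⟨B, fun x => hB x (Set.mem_univ x)⟩
    choose B hB using h1
    refine ⟨∑ y ∈ Y, |B y| + 1, by positivity, fun y hy x => ?_⟩
    have h2 : |B y| ≤ ∑ y ∈ Y, |B y| :=
      Finset.single_le_sum (f := fun y => |B y|) (fun _ _ => abs_nonneg _) hy
    have h3 := hB y x
    have h4 := le_abs_self (B y)
    linarith
  set R := Y.card with hR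
  refine ⟨Y, (r - 1) * R, R * (r - 1) + 1, L, hL0, fun y hy => (hYsub hy).1, ?_, ?_⟩
  · intro f hf h u hu
    have h1 : f (h * u) = ∑ y ∈ Y, f (h * y) * e y u :=
      he (fun x => f (h * x)) (hleft f hf h) u hu
    rw [h1]
    refine (norm_sum_le _ _).trans ?_
    rw [Finset.mul_sum]
    refine Finset.sum_le_sum fun y hy => ?_
    rw [norm_mul, mul_comm]
    exact mul_le_mul_of_nonneg_right (hL y hy u) (norm_nonneg _)
  intro f hf g c hcpos hlow t N _ _ A hA hsmall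
  have hr : 0 < r := by
    rw [hrdef, Module.finrank_pos_iff_exists_ne_zero]
    refine ⟨⟨f, hf⟩, fun h => ?_⟩
    have h0 : f = 0 := congrArg Subtype.val h
    have h1 := hlow g (by simp [U0.one_mem])
    rw [h0] at h1
    simp only [Pi.zero_apply, norm_zero, Finset.sum_const_zero] at h1
    have h2 : 0 < ((R : ℝ) + 1) * c := by positivity
    linarith
  have : Finite (Γ ⧸ N) := inferInstance
  -- the classes of `g U0` and of `U0` are equinumerous
  have hcls : (cls N U0 g).ncard = ((QuotientGroup.mk '' (U0 : Set Γ)) : Set (Γ ⧸ N)).ncard := by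
    have : cls N U0 g = (fun y => (g : Γ ⧸ N) * y) '' (QuotientGroup.mk '' (U0 : Set Γ)) := by
      ext y
      constructor
      · rintro ⟨h, hh, rfl⟩
        refine ⟨_, ⟨g⁻¹ * h, hh, rfl⟩, ?_⟩
        show ((g * (g⁻¹ * h) : Γ) : Γ ⧸ N) = _
        rw [mul_inv_cancel_left]
      · rintro ⟨_, ⟨u, hu, rfl⟩, rfl⟩
        refine ⟨g * u, ?_, rfl⟩
        show g⁻¹ * (g * u) ∈ U0
        rw [inv_mul_cancel_left]
        exact hu
    rw [this, Set.ncard_image_of_injective _ (mul_right_injective _)]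
  have hAcls : A ⊆ cls N U0 g := hA
  by_cases ht : t = 0
  · subst ht
    rw [pow_zero, mul_one, ← hcls]
    have h1 := Set.ncard_le_ncard hAcls (Set.toFinite _)
    exact le_trans h1 (Nat.le_mul_of_pos_left _ (by omega))
  -- main case
  have hn : 2 ≤ ℓ ^ t := by
    calc 2 ≤ ℓ := hℓ.out.two_le
      _ = ℓ ^ 1 := (pow_one _).symm
      _ ≤ ℓ ^ t := Nat.pow_le_pow_right hℓ.out.pos (by omega)
  have hsteps := steps N U0 g f ((ℓ : ℝ) ^ (t * (r - 1))) (ℓ ^ t) r hn hr Y.toList {1} rfl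
    (c * ((ℓ : ℝ) ^ ((r - 1) * R * t))⁻¹)
    (fun u hu => (hYsub (by simpa using hu)).1)
    (fun u hu ε h σ => dich hK E hleft hr b u (hYsub (by simpa using hu)).2 f hf h σ t ε)
  have hsubA : A ⊆ bad N U0 g f {1} (c * ((ℓ : ℝ) ^ ((r - 1) * R * t))⁻¹) := by
    intro y hy
    refine ⟨hAcls hy, fun h hh hhy σ hσ => ?_⟩
    rw [Set.mem_singleton_iff] at hσ
    subst hσ
    rw [mul_one]
    exact hsmall h hh (hhy ▸ hy)
  have hεR : c * ((ℓ : ℝ) ^ ((r - 1) * R * t))⁻¹ * ((ℓ : ℝ) ^ (t * (r - 1))) ^ Y.toList.length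
      = c := by
    rw [Finset.length_toList, ← pow_mul, mul_assoc]
    have : (r - 1) * R * t = t * (r - 1) * Y.card := by rw [hR]; ring
    rw [this, inv_mul_cancel₀ (by positivity), mul_one]
  rw [hεR] at hsteps
  have hempty : bad N U0 g f ({1} ∪ {u | u ∈ Y.toList}) c = ∅ := by
    ext y
    simp only [Set.mem_empty_iff_false, iff_false]
    rintro ⟨⟨h, hh, rfl⟩, hbad⟩
    have h1 : ∑ y ∈ Y, ‖f (h * y)‖ ≤ ∑ _y ∈ Y, c :=
      Finset.sum_le_sum fun y hy => hbad h hh rfl y (Or.inr (by simpa using hy))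
    rw [Finset.sum_const, nsmul_eq_mul] at h1
    have h2 := hlow h hh
    rw [add_mul, one_mul] at h2
    linarith
  rw [hempty, Set.ncard_empty, zero_mul, zero_add, Finset.length_toList, hcls] at hsteps
  have h1 := Set.ncard_le_ncard hsubA (Set.toFinite _)
  calc A.ncard * ℓ ^ t
      ≤ (bad N U0 g f {1} (c * ((ℓ : ℝ) ^ ((r - 1) * R * t))⁻¹)).ncard * ℓ ^ t :=
        Nat.mul_le_mul_right _ h1
    _ ≤ _ := hsteps
    _ ≤ _ := by
        rw [← mul_assoc, hR]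
        exact Nat.mul_le_mul_right _ (Nat.le_succ _)

end MPb685PA
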