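import Pool.Agent.Lib.MP_b685ef_ag.PA.LOW
import Pool.Agent.Lib.MP_b685ef_ag.PA.USUB
import Pool.Agent.Lib.MP_b685ef_ag.PS.STA
import Pool.Agent.Lib.MP_b685ef_ag.PS.HAD
import Pool.Agent.Lib.MP_b685ef_ag.ZO.ENV

/-!
MP_b685ef_ag, power saving for all l: the constants, uniform in the degree and in the coset.
-/

open MPb685ZO MPb685PS MPb685PS.SUB Finset

namespace MPb685PA

theorem classes {ℓ : ℕ} [Fact ℓ.Prime] {K : Type*} [NontriviallyNormedField K]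
    [NormedAlgebra ℚ_[ℓ] K] [IsUltrametricDist K] [FiniteDimensional ℚ_[ℓ] K] [CharZero K]
    {Γ : Type*} [Group Γ] [TopologicalSpace Γ] [IsTopologicalGroup Γ] [CompactSpace Γ]
    [T2Space Γ] [TotallyDisconnectedSpace Γ] (Γ0 : Subgroup Γ) [Γ0.Normal] (F : Γ)
    {V : Type*} [AddCommGroup V] [Module K V] [FiniteDimensional K V] (ρ : Representation K Γ V)
    (hc : ∀ (v : V) (f : Module.Dual K V), Continuous fun g => f (ρ g v))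
    (hpw : (∀ (x : Γ) (k : ℕ), ‖(LinearMap.charpoly (ρ x)).coeff k‖ ≤ 1) →
      ∀ (r q' : ℕ), 1 ≤ q' → ∀ x : Γ, nEig (ρ x) ≤ r →
      ‖hank r (ρ (x ^ q'))‖ ≤ ‖hank r (ρ x)‖)
    (hint : (∃ M : ℕ, 1 ≤ M ∧ ∀ (x : Γ) (k : ℕ), ‖(LinearMap.charpoly (ρ (x ^ M))).coeff k‖ ≤ 1) →
      ∀ (x : Γ) (k : ℕ), ‖(LinearMap.charpoly (ρ x)).coeff k‖ ≤ 1) :
    ∃ (U : Subgroup Γ) (m' : ℕ) (N : ℕ → Subgroup Γ) (Q κ C e : ℕ) (c1 L0 : ℝ),
      U.Normal ∧ IsOpen (U : Set Γ) ∧ 1 ≤ m' ∧ (∀ m, (N m).Normal) ∧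
      (∀ m, IsOpen (N m : Set Γ)) ∧ (∀ m g, ρ g = 1 → g ∈ N m) ∧
      (∀ m, Nat.card (Γ ⧸ N m) ≤ Q ^ (m + 1)) ∧ 0 < c1 ∧ 0 < L0 ∧
      (∀ k ≤ Module.finrank K V, ∀ m g, ∀ ν ∈ N m,
        ‖hank k (ρ (g * ν)) - hank k (ρ g)‖ ≤ L0 * ((ℓ : ℝ) ^ m)⁻¹) ∧
      ∀ n : ℕ, 1 ≤ n → ∀ g : Γ, (F ^ n)⁻¹ * g ∈ Γ0 → ∃ r ≤ Module.finrank K V,
        (∀ (x : Γ) (a : ℤ), g⁻¹ * x ∈ U → (m' : ℤ) ∣ a - n → (F ^ a)⁻¹ * x ∈ Γ0 →
          nEig (ρ x) ≤ r) ∧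
        ∀ (t : ℕ) (N' : Subgroup Γ) [N'.Normal] [N'.FiniteIndex], ∀ A : Set (Γ ⧸ N'),
          A ⊆ QuotientGroup.mk '' {h : Γ | g⁻¹ * h ∈ U ⊓ Γ0} →
          (∀ h : Γ, g⁻¹ * h ∈ U ⊓ Γ0 → (h : Γ ⧸ N') ∈ A →
            ‖hank r (ρ h)‖ ≤ c1 * ((n : ℝ) ^ e)⁻¹ * ((ℓ : ℝ) ^ (κ * t))⁻¹) →
          A.ncard * ℓ ^ t ≤
            C * ((QuotientGroup.mk '' ((U ⊓ Γ0 : Subgroup Γ) : Set Γ)) : Set (Γ ⧸ N')).ncard := by
  classical
  have hK : ∀ m : ℤ, ‖(m : K)‖ = ‖(m : ℚ_[ℓ])‖ := by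
    intro m
    rw [← map_intCast (algebraMap ℚ_[ℓ] K) m, norm_algebraMap']
  have hℓp : ℓ.Prime := Fact.out
  have hℓ0 : (0 : ℝ) < ℓ := by exact_mod_cast hℓp.pos
  -- the function space
  obtain ⟨E, hEf, hEc, hEl, hEF⟩ := specENV ρ hc
    (Set.range fun k : Fin (Module.finrank K V + 1) => fun g => hank (k : ℕ) (ρ g))
    (Set.finite_range _) (by rintro _ ⟨k, rfl⟩; exact specHAD ρ k)
  have hEk : ∀ k ≤ Module.finrank K V, (fun g => hank k (ρ g)) ∈ E :=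
    fun k hk => hEF ⟨⟨k, Nat.lt_succ_of_le hk⟩, rfl⟩
  obtain ⟨U1, hU1n, hU1o, hU1⟩ := specSTA E hEl Γ0
  obtain ⟨N, hNn, hNo, hNk, ⟨Q, hQ⟩, hNl, hNℓ, hN1⟩ := specLEV2 (ℓ := ℓ) ρ hc
  set U : Subgroup Γ := U1 ⊓ N 1 with hUdef
  have hNn1 : (N 1).Normal := hNn 1
  have hUn : U.Normal := inferInstance
  have hUo : IsOpen (U : Set Γ) := hU1o.inter (hNo 1)
  have hsta : ∀ f ∈ E, ∀ g : Γ, (∃ u ∈ U ⊓ Γ0, f (g * u) ≠ 0) → ∀ O : Set Γ, IsOpen O →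
      (1 : Γ) ∈ O → ∃ u ∈ U ⊓ Γ0, u ∈ O ∧ f (g * u) ≠ 0 := by
    rintro f hf g ⟨u, hu, hfu⟩ O hO h1
    obtain ⟨u', hu', hu'O, hfu'⟩ := hU1 f hf g ⟨u, ⟨hu.1.1, hu.2⟩, hfu⟩ (O ∩ (U : Set Γ))
      (hO.inter hUo) ⟨h1, U.one_mem⟩
    exact ⟨u', ⟨hu'O.2, hu'.2⟩, hu'O.1, hfu'⟩
  obtain ⟨Y, κ, C, L, hLpos, hYU, hYL, hcnt⟩ := specUSUB (ℓ := ℓ) E hEc hEl (U ⊓ Γ0) hsta
  -- Lipschitz constants
  choose Lk hLk using fun k : ℕ => hNl _ (specHAD ρ k)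
  obtain ⟨L0, hL0pos, hL0⟩ : ∃ L0 : ℝ, 0 < L0 ∧ ∀ k ≤ Module.finrank K V, Lk k ≤ L0 := by
    refine ⟨∑ k ∈ Finset.range (Module.finrank K V + 1), |Lk k| + 1, by positivity,
      fun k hk => ?_⟩
    have h1 : |Lk k| ≤ ∑ k ∈ Finset.range (Module.finrank K V + 1), |Lk k| :=
      Finset.single_le_sum (f := fun k => |Lk k|) (fun i _ => abs_nonneg _)
        (Finset.mem_range.2 (Nat.lt_succ_of_le hk))
    have h2 := le_abs_self (Lk k)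
    linarith
  have hlip : ∀ k ≤ Module.finrank K V, ∀ m g, ∀ ν ∈ N m,
      ‖hank k (ρ (g * ν)) - hank k (ρ g)‖ ≤ L0 * ((ℓ : ℝ) ^ m)⁻¹ := by
    intro k hk m g ν hν
    exact (hLk k m g ν hν).trans (mul_le_mul_of_nonneg_right (hL0 k hk) (by positivity))
  -- the dimension of `E`
  set R := Module.finrank K E with hRdef
  have hR : 0 < R := by
    rw [hRdef, Module.finrank_pos_iff_exists_ne_zero]
    refine ⟨⟨fun g => hank (nEig (ρ 1)) (ρ g), hEk _ (specHKL _).2.2.1⟩, fun h => ?_⟩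
    have h0 : (fun g => hank (nEig (ρ 1)) (ρ g)) = 0 := congrArg Subtype.val h
    exact (specHKL (ρ 1)).1 (congrFun h0 1)
  set b : Module.Basis (Fin R) K E := Module.finBasis K E with hb
  set O : Set Γ := {u : Γ | ∀ i j, ‖LinearMap.toMatrix b b (tr E hEl u) i j
      - (1 : Matrix (Fin R) (Fin R) K) i j‖ < ((ℓ : ℝ) ^ (R + 1))⁻¹} with hO
  have hOo : IsOpen O := isOpen_near E hEc hEl b _
  have hO1 : (1 : Γ) ∈ O := by
    intro i j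
    rw [tr_one, LinearMap.toMatrix_one, sub_self, norm_zero]
    positivity
  -- the degree `m'`
  obtain ⟨H, hH⟩ := ProfiniteGrp.exist_openNormalSubgroup_sub_open_nhds_of_one hOo hO1
  set W : Subgroup Γ := U ⊓ H.toSubgroup with hW
  have hWo : IsOpen (W : Set Γ) := hUo.inter H.isOpen'
  have hWfin : Finite (Γ ⧸ W) := Subgroup.quotient_finite_of_isOpen W hWo
  have hWn : W.Normal := inferInstance
  set m' := Nat.card (Γ ⧸ W) with hm'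
  have hm'1 : 1 ≤ m' := Nat.card_pos
  have hpowW : ∀ g : Γ, g ^ m' ∈ W := by
    intro g
    rw [← QuotientGroup.eq_one_iff, QuotientGroup.mk_pow]
    exact pow_card_eq_one'
  -- the modulus and `p`
  have hMU : ∀ g : Γ, g ^ m' ∈ U := fun g => (hpowW g).1
  set p := 1 + m' * ℓ with hp
  have hp2 : 2 ≤ p := by
    have := hℓp.two_le
    rw [hp]
    nlinarith
  have hpℓ : Nat.Coprime p ℓ := by
    rw [hp, Nat.coprime_add_mul_right_left]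
    exact Nat.coprime_one_left ℓ
  have hint' := hint ⟨m', hm'1, fun x k => hN1 _ (hpowW x).1.2 k⟩
  have hpw' := hpw hint'
  -- one class
  have hone : ∀ (c : Γ ⧸ U) (a : ℤ), ∃ (c1 : ℝ) (r : ℕ), 0 < c1 ∧ r ≤ Module.finrank K V ∧
      (∀ (x : Γ) (a' : ℤ), (x : Γ ⧸ U) = c → (m' : ℤ) ∣ a' - a → (F ^ a')⁻¹ * x ∈ Γ0 →
        nEig (ρ x) ≤ r) ∧
      ∀ n : ℕ, 1 ≤ n → (m' : ℤ) ∣ (n : ℤ) - a → ∀ h : Γ, (F ^ n)⁻¹ * h ∈ Γ0 →
        (h : Γ ⧸ U) = c → c1 * ((n : ℝ) ^ (R - 1))⁻¹ ≤ ∑ y ∈ Y, ‖hank r (ρ (h * y))‖ := by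
    intro c a
    set D : Set Γ := {x | (x : Γ ⧸ U) = c ∧ ∃ a' : ℤ, (m' : ℤ) ∣ a' - a ∧ (F ^ a')⁻¹ * x ∈ Γ0}
      with hD
    by_cases hne : D.Nonempty
    · let S : Set ℕ := {k | ∃ x ∈ D, nEig (ρ x) = k}
      have hSne : S.Nonempty := by
        obtain ⟨x, hx⟩ := hne
        exact ⟨_, x, hx, rfl⟩
      have hSbd : BddAbove S := by
        refine ⟨Module.finrank K V, ?_⟩
        rintro k ⟨x, -, rfl⟩
        exact (specHKL _).2.2.1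
      obtain ⟨hs, ⟨hsc, ns, hns, hsF⟩, hsr⟩ := Nat.sSup_mem hSne hSbd
      have hmax : ∀ x ∈ D, nEig (ρ x) ≤ nEig (ρ hs) := by
        intro x hx
        rw [hsr]
        exact le_csSup hSbd ⟨x, hx, rfl⟩
      have hrdim : nEig (ρ hs) ≤ Module.finrank K V := (specHKL _).2.2.1
      obtain ⟨c1, hc1, hlow⟩ := low hK ρ U Γ0 F N hNn hNℓ inf_le_right m' hm'1 hMU (nEig (ρ hs)) L0
        (hlip _ hrdim) (fun q' hq' x hx => hpw' _ q' hq' x hx) p hp2 ℓ rfl hpℓ E hEl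
        (hEk _ hrdim) hR b m' hm'1 (dvd_refl _) (F ^ m') (hMU F) (by simp [Γ0.one_mem])
        (hH (hpowW F).2) hs ns hsF
        (by
          rintro x hxU ⟨a', ha', hx⟩
          apply hmax
          refine ⟨?_, a', ?_, hx⟩
          · rw [← hsc]
            exact (QuotientGroup.eq.2 hxU).symm
          · have : a' - a = (a' - ns) + (ns - a) := by ring
            rw [this]
            exact dvd_add ha' hns)
        (specHKL _).1 Y L hLpos (fun h u hu => hYL _ (hEk _ hrdim) h u hu)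
      refine ⟨c1, nEig (ρ hs), hc1, hrdim, ?_, ?_⟩
      · intro x a' hx ha' hxF
        exact hmax x ⟨hx, a', ha', hxF⟩
      · intro n hn hna h hhF hhc
        refine hlow n hn ?_ h hhF ?_
        · have : (n : ℤ) - ns = (n - a) - (ns - a) := by ring
          rw [this]
          exact dvd_sub hna hns
        · rw [← QuotientGroup.eq, hsc, hhc]
    · refine ⟨1, 0, one_pos, Nat.zero_le _, ?_, ?_⟩
      · intro x a' hx ha' hxF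
        exact absurd ⟨x, hx, a', ha', hxF⟩ hne
      · intro n hn hna h hhF hhc
        refine absurd ⟨h, hhc, n, hna, ?_⟩ hne
        rw [zpow_natCast]
        exact hhF
  choose c1 r hc1 hrd hr1 hr2 using hone
  have hUfin : Finite (Γ ⧸ U) := Subgroup.quotient_finite_of_isOpen U hUo
  -- the minimum of the constants
  obtain ⟨c0, hc0, hc0le⟩ : ∃ c0 : ℝ, 0 < c0 ∧ ∀ (c : Γ ⧸ U) (a : Fin m'), c0 ≤ c1 c (a : ℕ) := by
    have hne : Nonempty ((Γ ⧸ U) × Fin m') := ⟨(((1 : Γ) : Γ ⧸ U), ⟨0, hm'1⟩)⟩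
    obtain ⟨x0, hx0⟩ := Finite.exists_min (fun x : (Γ ⧸ U) × Fin m' => c1 x.1 (x.2 : ℕ))
    exact ⟨_, hc1 x0.1 _, fun c a => hx0 (c, a)⟩
  refine ⟨U, m', N, Q, κ, C, R - 1, c0 / ((Y.card : ℝ) + 1), L0, hUn, hUo, hm'1, hNn, hNo, hNk,
    hQ, by positivity, hL0pos, hlip, ?_⟩
  intro n hn g hg
  -- the residue of `n`
  set a : ℕ := n % m' with ha
  have halt : a < m' := Nat.mod_lt _ hm'1
  have hna : (m' : ℤ) ∣ (n : ℤ) - (a : ℕ) := by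
    rw [ha]
    push_cast
    exact Int.dvd_self_sub_emod
  have hnpos : (0 : ℝ) < n := by exact_mod_cast hn
  refine ⟨r (g : Γ ⧸ U) a, hrd _ _, ?_, ?_⟩
  · intro x a' hx ha' hxF
    refine hr1 (g : Γ ⧸ U) a x a' (QuotientGroup.eq.2 hx).symm ?_ hxF
    have : a' - (a : ℤ) = (a' - n) + (n - (a : ℕ)) := by ring
    rw [this]
    exact dvd_add ha' hna
  · intro t N' _ _ A hA hsmall
    refine hcnt _ (hEk _ (hrd _ _)) g (c0 / ((Y.card : ℝ) + 1) * ((n : ℝ) ^ (R - 1))⁻¹)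
      (by positivity) ?_ t N' A hA hsmall
    intro h hh
    have h1 := hr2 (g : Γ ⧸ U) a n hn hna h (by
      have h2 : (F ^ n)⁻¹ * h = ((F ^ n)⁻¹ * g) * (g⁻¹ * h) := by group
      rw [h2]
      exact Γ0.mul_mem hg hh.2) (QuotientGroup.eq.2 hh.1).symm
    have h3 := hc0le (g : Γ ⧸ U) ⟨a, halt⟩
    refine le_trans ?_ h1
    have h4 : ((Y.card : ℝ) + 1) * (c0 / ((Y.card : ℝ) + 1) * ((n : ℝ) ^ (R - 1))⁻¹) =
        c0 * ((n : ℝ) ^ (R - 1))⁻¹ := by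
      field_simp
    rw [h4]
    exact mul_le_mul_of_nonneg_right h3 (by positivity)

end MPb685PA
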