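import Pool.Agent.Lib.MP_b685ef_ag.PS.HKL
import Mathlib.Topology.Algebra.Valued.NormedValued
import Mathlib.RingTheory.Polynomial.GaussLemma

/-!
MP_b685ef_ag, module HPW: the Hankel determinants of the powers of an integral operator.

If the characteristic polynomial of `A` is integral and `A` has at most `r` eigenvalues, then
`‖hank r (A ^ p)‖ ≤ ‖hank r A‖`.
-/

set_option autoImplicit false

open Polynomial

namespace MPb685PA

open MPb685ZO MPb685PS

section gen

variable {K : Type*} [Field K] {V : Type*} [AddCommGroup V] [Module K V] [FiniteDimensional K V]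

/-- a squarefree polynomial with nilpotent value at `A` -/
lemma exists_rad [CharZero K] (A : Module.End K V) :
    ∃ g : K[X], g.Monic ∧ g ∣ LinearMap.charpoly A ∧ IsNilpotent (aeval A g) ∧
      g.natDegree = nEig A := by
  classical
  obtain ⟨g0, k, hsq, hd, hpow⟩ :=
    exists_squarefree_dvd_pow_of_ne_zero (LinearMap.charpoly_monic A).ne_zero
  have hg0 : g0 ≠ 0 := hsq.ne_zero
  have hlc : g0.leadingCoeff ≠ 0 := leadingCoeff_ne_zero.2 hg0
  set g := g0 * C g0.leadingCoeff⁻¹ with hg
  have hgm : g.Monic := monic_mul_leadingCoeff_inv hg0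
  have hu : IsUnit (C g0.leadingCoeff⁻¹) := isUnit_C.2 (inv_ne_zero hlc).isUnit
  have hdvd : g ∣ g0 := by
    rw [hg]
    exact (associated_mul_unit_left g0 _ hu).dvd
  have hdvd' : g0 ∣ g := by
    rw [hg]
    exact (associated_mul_unit_right g0 _ hu).dvd
  refine ⟨g, hgm, hdvd.trans hd, ⟨k, ?_⟩, ?_⟩
  · have h1 : LinearMap.charpoly A ∣ g ^ k := hpow.trans (pow_dvd_pow_of_dvd hdvd' k)
    obtain ⟨c, hc⟩ := h1
    rw [← map_pow, hc, map_mul, LinearMap.aeval_self_charpoly, zero_mul]
  · have hsqg : Squarefree g := hsq.squarefree_of_dvd hdvd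
    have hsep : g.Separable := PerfectField.separable_iff_squarefree.2 hsqg
    have hsplit : Splits (g.map (algebraMap K (AlgebraicClosure K))) := IsAlgClosed.splits _
    rw [← card_rootSet_eq_natDegree hsep hsplit]
    unfold nEig
    have hset : g.rootSet (AlgebraicClosure K) =
        (LinearMap.charpoly A).rootSet (AlgebraicClosure K) := by
      ext x
      rw [mem_rootSet, mem_rootSet]
      constructor
      · rintro ⟨-, h⟩
        refine ⟨(LinearMap.charpoly_monic A).ne_zero, ?_⟩
        obtain ⟨c, hc⟩ := hdvd.trans hd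
        rw [hc, map_mul, h, zero_mul]
      · rintro ⟨-, h⟩
        refine ⟨hgm.ne_zero, ?_⟩
        obtain ⟨c, hc⟩ := hpow.trans (pow_dvd_pow_of_dvd hdvd' k)
        have h1 : aeval x (g ^ k) = 0 := by rw [hc, map_mul, h, zero_mul]
        rw [map_pow] at h1
        exact IsNilpotent.eq_zero ⟨k, h1⟩
    rw [← hset, Set.ncard_eq_toFinset_card', Set.toFinset_card]

omit [FiniteDimensional K V] in
lemma trace_eq_of_nil {A B : Module.End K V} (h : IsNilpotent (A - B)) :
    LinearMap.trace K V A = LinearMap.trace K V B := by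
  have := (LinearMap.isNilpotent_trace_of_isNilpotent h).eq_zero
  rw [map_sub, sub_eq_zero] at this
  exact this

end gen

section main

variable {K : Type*} [Field K] {V : Type*} [AddCommGroup V] [Module K V] [FiniteDimensional K V]

omit [FiniteDimensional K V] in
/-- the base change of the Hankel matrix -/
theorem hank_pow_eq (O : Subring K) (A : Module.End K V) (f : O[X]) (hf : f.Monic)
    (hnil : IsNilpotent (aeval A (f.map O.subtype))) (p : ℕ) :
    ∃ D : O, hank f.natDegree (A ^ p) = (D : K) ^ 2 * hank f.natDegree A := by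
  classical
  set r := f.natDegree with hr
  let P : ℕ → O[X] := fun b => (X ^ (p * b)) %ₘ f
  let Q : ℕ → K[X] := fun b => (P b).map O.subtype
  let M : Matrix (Fin r) (Fin r) O := Matrix.of fun b c => (P b).coeff c
  have hfm : (f.map O.subtype).Monic := hf.map _
  -- congruence
  have hcong : ∀ b, f.map O.subtype ∣ X ^ (p * b) - Q b := by
    intro b
    have h1 := modByMonic_add_div (X ^ (p * b)) f
    have h2 : (X ^ (p * b) : O[X]) - P b = f * ((X ^ (p * b)) /ₘ f) := by
      rw [sub_eq_iff_eq_add, add_comm]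
      exact h1.symm
    have h3 := congrArg (Polynomial.map O.subtype) h2
    rw [Polynomial.map_sub, Polynomial.map_mul, Polynomial.map_pow, map_X] at h3
    exact ⟨_, h3⟩
  have hQdeg : ∀ b (_ : Fin r), (Q b).natDegree < r := by
    intro b i
    have h0 : f ≠ 1 := by
      intro h
      have h1 : r = 0 := by rw [hr, h, natDegree_one]
      exact absurd i.2 (by omega)
    exact lt_of_le_of_lt natDegree_map_le (natDegree_modByMonic_lt _ hf h0)
  have htr : ∀ b b' : Fin r, LinearMap.trace K V ((A ^ p) ^ ((b : ℕ) + (b' : ℕ))) =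
      ∑ c : Fin r, ∑ c' : Fin r, (M b c : K) * (M b' c' : K) *
        LinearMap.trace K V (A ^ ((c : ℕ) + (c' : ℕ))) := by
    intro b b'
    have h1 : f.map O.subtype ∣ X ^ (p * (b + b')) - Q b * Q b' := by
      have h2 : (X : K[X]) ^ (p * ((b : ℕ) + b')) - Q b * Q b' =
          (X ^ (p * (b : ℕ)) - Q b) * X ^ (p * (b' : ℕ)) + Q b * (X ^ (p * (b' : ℕ)) - Q b') := by
        rw [mul_add, pow_add]
        ring
      rw [h2]
      exact dvd_add ((hcong b).mul_right _) ((hcong b').mul_left _)
    obtain ⟨c, hc⟩ := h1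
    have h3 : (A ^ p) ^ ((b : ℕ) + b') - aeval A (Q b * Q b') =
        aeval A (f.map O.subtype) * aeval A c := by
      rw [← map_mul, ← hc, map_sub, map_pow, aeval_X, pow_mul]
    have h4 : IsNilpotent ((A ^ p) ^ ((b : ℕ) + b') - aeval A (Q b * Q b')) := by
      rw [h3]
      exact (Commute.isNilpotent_mul_right (by
        rw [commute_iff_eq, ← map_mul, ← map_mul, mul_comm]) hnil)
    rw [trace_eq_of_nil h4, map_mul, aeval_eq_sum_range' (hQdeg b b),
      aeval_eq_sum_range' (hQdeg b' b), Finset.sum_mul_sum, map_sum,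
      ← Fin.sum_univ_eq_sum_range (fun i => LinearMap.trace K V (∑ j ∈ Finset.range r,
        (Q b).coeff i • A ^ i * (Q b').coeff j • A ^ j))]
    refine Finset.sum_congr rfl fun c _ => ?_
    rw [map_sum, ← Fin.sum_univ_eq_sum_range (fun j => LinearMap.trace K V
        ((Q b).coeff c • A ^ (c : ℕ) * (Q b').coeff j • A ^ j))]
    refine Finset.sum_congr rfl fun c' _ => ?_
    rw [smul_mul_smul_comm, ← pow_add, map_smul, smul_eq_mul]
    congr 2
    · rw [coeff_map]; rfl
    · rw [coeff_map]; rfl
  refine ⟨M.det, ?_⟩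
  have hmat : (Matrix.of fun a b : Fin r => LinearMap.trace K V ((A ^ p) ^ ((a : ℕ) + (b : ℕ)))) =
      (M.map O.subtype) *
        (Matrix.of fun a b : Fin r => LinearMap.trace K V (A ^ ((a : ℕ) + (b : ℕ)))) *
          (M.map O.subtype).transpose := by
    ext b b'
    rw [Matrix.of_apply, htr, Matrix.mul_apply]
    rw [Finset.sum_comm]
    refine Finset.sum_congr rfl fun c' _ => ?_
    rw [Matrix.mul_apply, Finset.sum_mul]
    refine Finset.sum_congr rfl fun c _ => ?_
    simp only [Matrix.map_apply, Matrix.of_apply, Matrix.transpose_apply, Subring.subtype_apply]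
    ring
  have hdet : (M.map O.subtype).det = (M.det : K) := by
    have := (O.subtype).map_det M
    rw [RingHom.mapMatrix_apply] at this
    exact this.symm
  unfold hank
  rw [hmat, Matrix.det_mul, Matrix.det_mul, Matrix.det_transpose, hdet]
  ring

end main

section norm

variable {K : Type*} [NormedField K] [IsUltrametricDist K] [CharZero K] {V : Type*}
  [AddCommGroup V] [Module K V] [FiniteDimensional K V]

/-- HPW -/
theorem hank_pow_le (A : Module.End K V) (r : ℕ) (hr : nEig A ≤ r)
    (hint : ∀ i, ‖(LinearMap.charpoly A).coeff i‖ ≤ 1) (p : ℕ) :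
    ‖hank r (A ^ p)‖ ≤ ‖hank r A‖ := by
  classical
  let O : ValuationSubring K := (NormedField.valuation (K := K)).valuationSubring
  have hO : ∀ x : K, x ∈ O ↔ ‖x‖ ≤ 1 := by
    intro x
    rw [Valuation.mem_valuationSubring_iff, NormedField.valuation_apply, ← NNReal.coe_le_coe]
    simp
  obtain ⟨g, hgm, hgd, hnil, hdeg⟩ := exists_rad A
  -- the characteristic polynomial over `O`
  obtain ⟨χ, hχ, hχm⟩ : ∃ χ : O[X], χ.map (algebraMap O K) = LinearMap.charpoly A ∧ χ.Monic := by
    have hl : LinearMap.charpoly A ∈ lifts (algebraMap O K) := by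
      rw [lifts_iff_coeff_lifts]
      intro n
      exact ⟨⟨(LinearMap.charpoly A).coeff n, (hO _).2 (hint n)⟩, rfl⟩
    obtain ⟨χ, h1, -, h2⟩ := lifts_and_natDegree_eq_and_monic hl (LinearMap.charpoly_monic A)
    exact ⟨χ, h1, h2⟩
  obtain ⟨g', hg'⟩ := IsIntegrallyClosed.eq_map_mul_C_of_dvd (R := O) K hχm (g := g)
    (by rw [hχ]; exact hgd)
  rw [hgm.leadingCoeff, C_1, mul_one] at hg'
  have hinj : Function.Injective (algebraMap O K) := Subtype.val_injective
  have hg'm : g'.Monic := by
    rw [← hg'] at hgm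
    exact hinj.monic_map_iff.2 hgm
  set f : O[X] := g' * X ^ (r - nEig A) with hf
  have hfm : f.Monic := hg'm.mul (monic_X_pow _)
  have hfd : f.natDegree = r := by
    rw [hf, hg'm.natDegree_mul (monic_X_pow _), natDegree_X_pow, ← natDegree_map_eq_of_injective hinj,
      hg', hdeg]
    omega
  have hfn : IsNilpotent (aeval A (f.map O.toSubring.subtype)) := by
    have h1 : f.map O.toSubring.subtype = g * X ^ (r - nEig A) := by
      change f.map (algebraMap O K) = _
      rw [hf, Polynomial.map_mul, hg', Polynomial.map_pow, map_X]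
    rw [h1, map_mul]
    exact Commute.isNilpotent_mul_right (by
        rw [commute_iff_eq, ← map_mul, ← map_mul, mul_comm]) hnil
  obtain ⟨D, hD⟩ := hank_pow_eq O.toSubring A f hfm hfn p
  rw [hfd] at hD
  rw [hD, norm_mul, norm_pow]
  have h1 : ‖(D : K)‖ ≤ 1 := (hO _).1 D.2
  have h2 : ‖(D : K)‖ ^ 2 ≤ 1 := pow_le_one₀ (norm_nonneg _) h1
  exact mul_le_of_le_one_left (norm_nonneg _) h2

theorem specHPW (A : Module.End K V) (hint : ∀ k, ‖(LinearMap.charpoly A).coeff k‖ ≤ 1) (r : ℕ)
    (hr : nEig A ≤ r) (q : ℕ) : ‖hank r (A ^ q)‖ ≤ ‖hank r A‖ :=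
  hank_pow_le A r hr hint q

end norm

end MPb685PA
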