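import Pool.Agent.Lib.MP_b685ef_ag.PS.Defs
import Pool.Agent.Lib.MP_b685ef_ag.ZO.HAN

/-!
MP_b685ef_ag, power saving for all l: integrality of characteristic polynomials.
-/

open Polynomial MPb685ZO MPb685PS
open scoped NNReal

namespace MPb685PA

section gauss

variable {K : Type*} [NormedField K] [IsUltrametricDist K]

/-- the ring of integers -/
noncomputable def OO (K : Type*) [NormedField K] [IsUltrametricDist K] : ValuationSubring K :=
  (NormedField.valuation (K := K)).valuationSubring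

theorem mem_OO (x : K) : x ∈ OO K ↔ ‖x‖ ≤ 1 := by
  show (NormedField.valuation (K := K)) x ≤ 1 ↔ ‖x‖ ≤ 1
  exact Iff.rfl

theorem lift_OO (Q : K[X]) (hQ : Q.Monic) (hc : ∀ k, ‖Q.coeff k‖ ≤ 1) :
    ∃ Q' : (OO K)[X], Q'.Monic ∧ Q'.map (algebraMap (OO K) K) = Q := by
  have h1 : Q ∈ Polynomial.lifts (algebraMap (OO K) K) := by
    rw [Polynomial.lifts_iff_coeff_lifts]
    intro k
    exact ⟨⟨Q.coeff k, (mem_OO _).2 (hc k)⟩, rfl⟩
  obtain ⟨Q', h2, h3, h4⟩ := Polynomial.lifts_and_degree_eq_and_monic h1 hQ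
  exact ⟨Q', h4, h2⟩

/-- a monic divisor of a monic integral polynomial is integral -/
theorem coeff_le_of_dvd (P Q : K[X]) (hP : P.Monic) (hQ : Q.Monic) (hc : ∀ k, ‖Q.coeff k‖ ≤ 1)
    (h : P ∣ Q) (k : ℕ) : ‖P.coeff k‖ ≤ 1 := by
  obtain ⟨Q', hQ', hQQ⟩ := lift_OO Q hQ hc
  rw [← hQQ] at h
  obtain ⟨g, hg⟩ := IsIntegrallyClosed.eq_map_mul_C_of_dvd K hQ' h
  rw [hP.leadingCoeff, C_1, mul_one] at hg
  rw [← hg, coeff_map]
  exact (mem_OO _).1 (g.coeff k).2

theorem coeff_mul_le (P Q : K[X]) (hP : ∀ k, ‖P.coeff k‖ ≤ 1) (hQ : ∀ k, ‖Q.coeff k‖ ≤ 1)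
    (k : ℕ) : ‖(P * Q).coeff k‖ ≤ 1 := by
  rw [coeff_mul]
  refine IsUltrametricDist.norm_sum_le_of_forall_le_of_nonneg zero_le_one ?_
  intro x _
  rw [norm_mul]
  exact mul_le_one₀ (hP _) (norm_nonneg _) (hQ _)

theorem coeff_pow_le (P : K[X]) (hP : ∀ k, ‖P.coeff k‖ ≤ 1) (n : ℕ) :
    ∀ k, ‖(P ^ n).coeff k‖ ≤ 1 := by
  induction n with
  | zero =>
    intro k
    rw [pow_zero, coeff_one]
    split_ifs
    · rw [norm_one]
    · rw [norm_zero]; exact zero_le_one
  | succ n ih =>
    rw [pow_succ]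
    exact coeff_mul_le _ _ ih hP

end gauss

/-- if the roots of `P` are roots of `p` then `P` divides a power of `p` -/
theorem dvd_pow_of_roots {K : Type*} [Field K] [CharZero K] (P p : K[X]) (hP : P.Monic)
    (h : ∀ x : AlgebraicClosure K, (P.map (algebraMap K (AlgebraicClosure K))).IsRoot x →
      (p.map (algebraMap K (AlgebraicClosure K))).IsRoot x) : ∃ n, P ∣ p ^ n := by
  set ι := algebraMap K (AlgebraicClosure K)
  have hm : (P.map ι).Monic := hP.map ι
  have h1 : P.map ι = ((P.map ι).roots.map fun x => X - C x).prod :=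
    (IsAlgClosed.splits (P.map ι)).eq_prod_roots_of_monic hm
  have h2 : P.map ι ∣ (p.map ι) ^ Multiset.card (P.map ι).roots := by
    conv_lhs => rw [h1]
    exact HAN.prod_dvd _ _ fun x hx => h x ((mem_roots hm.ne_zero).mp hx)
  refine ⟨Multiset.card (P.map ι).roots, ?_⟩
  rw [← Polynomial.map_pow, Polynomial.map_dvd_map'] at h2
  exact h2

/-- if `p(A) = 0` then the roots of the characteristic polynomial are roots of `p` -/
theorem root_of_aeval {K : Type*} [Field K] [CharZero K] {V : Type*} [AddCommGroup V] [Module K V]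
    [FiniteDimensional K V] (A : Module.End K V) (p : K[X]) (h : aeval A p = 0)
    (x : AlgebraicClosure K)
    (hx : ((LinearMap.charpoly A).map (algebraMap K (AlgebraicClosure K))).IsRoot x) :
    (p.map (algebraMap K (AlgebraicClosure K))).IsRoot x := by
  classical
  set ι := algebraMap K (AlgebraicClosure K)
  let b := Module.finBasis K V
  let B := (LinearMap.toMatrix b b A).map ι
  have hB : B.charpoly = (LinearMap.charpoly A).map ι := by
    rw [Matrix.charpoly_map, LinearMap.charpoly_toMatrix]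
  apply HAN.vanish_of_nil B (p.map ι) _ x (by rw [hB]; exact hx)
  have h1 : aeval (LinearMap.toMatrix b b A) p = 0 := by
    have h2 : aeval (LinearMap.toMatrix b b A) p = LinearMap.toMatrixAlgEquiv b (aeval A p) := by
      rw [← Polynomial.aeval_algHom_apply]
      rfl
    rw [h2, h, map_zero]
  have h3 : aeval B (p.map ι) = 0 := by
    have h4 : aeval B (p.map ι) = (aeval (LinearMap.toMatrix b b A) p).map ι := by
      have h5 := Polynomial.map_aeval_eq_aeval_map (φ := ι)
        (ψ := ι.mapMatrix (m := Fin (Module.finrank K V))) (by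
          ext a i j
          simp [Matrix.algebraMap_matrix_apply, RingHom.mapMatrix_apply]
          split_ifs <;> simp) p (LinearMap.toMatrix b b A)
      exact h5.symm
    rw [h4, h1]
    ext i j
    simp
  exact ⟨1, by rw [pow_one]; exact h3⟩

/-- if the characteristic polynomial of `A ^ M` is integral, so is that of `A` -/
theorem charpoly_int {K : Type*} [NormedField K] [IsUltrametricDist K] [CharZero K] {V : Type*}
    [AddCommGroup V] [Module K V] [FiniteDimensional K V] (A : Module.End K V) (M : ℕ)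
    (hM : 1 ≤ M) (h : ∀ k, ‖(LinearMap.charpoly (A ^ M)).coeff k‖ ≤ 1) (k : ℕ) :
    ‖(LinearMap.charpoly A).coeff k‖ ≤ 1 := by
  set Q := LinearMap.charpoly (A ^ M) with hQ
  set p := expand K M Q with hp
  have hpm : p.Monic := (LinearMap.charpoly_monic (A ^ M)).expand (by omega)
  have hpc : ∀ k, ‖p.coeff k‖ ≤ 1 := by
    intro k
    rw [hp, coeff_expand (by omega)]
    split_ifs
    · exact h _
    · rw [norm_zero]; exact zero_le_one
  have hp0 : aeval A p = 0 := by
    rw [hp, expand_aeval]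
    exact LinearMap.aeval_self_charpoly (A ^ M)
  obtain ⟨n, hn⟩ := dvd_pow_of_roots (LinearMap.charpoly A) p (LinearMap.charpoly_monic A)
    (fun x hx => root_of_aeval A p hp0 x hx)
  exact coeff_le_of_dvd _ _ (LinearMap.charpoly_monic A) (hpm.pow n) (coeff_pow_le p hpc n) hn k

end MPb685PA
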