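import Pool.Agent.Lib.MP_b685ef_ag.PA.CLS
import Pool.Agent.Lib.MP_b685ef_ag.PA.HPW
import Pool.Agent.Lib.MP_b685ef_ag.PA.INT
import Pool.Agent.Lib.MP_b685ef_ag.PA.NUM2
import Pool.Agent.Lib.MP_b685ef_ag.PS.SCA
import Pool.Agent.Lib.MP_b685ef_ag.ZO.FinE

/-!
MP_b685ef_ag, power saving for all l: the number of points whose Frobenius has fewer eigenvalues
than other elements of the same class and of the same degree modulo `m'`.
-/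

open MPb685ZO MPb685PS Finset

namespace MPb685PA

/-- the elements of degree `n` with fewer eigenvalues than some element of the same class modulo
`U` and of the same degree modulo `m'` -/
def BadS {K : Type*} [Field K] {V : Type*} [AddCommGroup V] [Module K V] [FiniteDimensional K V]
    {Γ : Type*} [Group Γ] (ρ : Representation K Γ V) (Γ0 : Subgroup Γ) (F : Γ) (U : Subgroup Γ)
    (m' n : ℕ) : Set Γ :=
  {h | (F ^ n)⁻¹ * h ∈ Γ0 ∧ ∃ (x : Γ) (a : ℤ), h⁻¹ * x ∈ U ∧ (m' : ℤ) ∣ a - n ∧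
    (F ^ a)⁻¹ * x ∈ Γ0 ∧ nEig (ρ h) < nEig (ρ x)}

/-- the level needed for the constant `c1 n ^ (-e)` -/
theorem exists_level {ℓ : ℕ} (hℓ : 2 ≤ ℓ) (c1 L0 : ℝ) (hc1 : 0 < c1) (hL0 : 0 < L0) (e : ℕ) :
    ∃ C2 : ℝ, 1 ≤ C2 ∧ ∀ n : ℕ, 1 ≤ n → ∃ s : ℕ,
      L0 * ((ℓ : ℝ) ^ s)⁻¹ ≤ c1 * ((n : ℝ) ^ e)⁻¹ ∧ (ℓ : ℝ) ^ s ≤ C2 * (n : ℝ) ^ e := by
  have hℓ1 : (1 : ℝ) < ℓ := by exact_mod_cast (by omega : 1 < ℓ)
  have hℓ0 : (0 : ℝ) < ℓ := by linarith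
  refine ⟨1 + ℓ * (L0 / c1), by
    have : 0 < ℓ * (L0 / c1) := by positivity
    linarith, ?_⟩
  intro n hn
  have hn1 : (1 : ℝ) ≤ (n : ℝ) ^ e := one_le_pow₀ (by exact_mod_cast hn)
  set X := L0 / c1 * (n : ℝ) ^ e with hX
  have hX0 : 0 < X := by positivity
  have hex : ∃ s : ℕ, X ≤ (ℓ : ℝ) ^ s := by
    obtain ⟨s, hs⟩ := pow_unbounded_of_one_lt X hℓ1
    exact ⟨s, hs.le⟩
  classical
  refine ⟨Nat.find hex, ?_, ?_⟩
  · have h1 := Nat.find_spec hex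
    have h2 : (0 : ℝ) < (ℓ : ℝ) ^ Nat.find hex := by positivity
    rw [← div_eq_mul_inv, ← div_eq_mul_inv, div_le_div_iff₀ h2 (by positivity)]
    have h3 : L0 * (n : ℝ) ^ e = c1 * X := by
      rw [hX]
      field_simp
    rw [h3]
    exact mul_le_mul_of_nonneg_left h1 hc1.le
  · rcases Nat.eq_zero_or_pos (Nat.find hex) with h0 | hpos
    · rw [h0, pow_zero]
      have : 0 ≤ ℓ * (L0 / c1) := by positivity
      nlinarith
    · have h1 := Nat.find_min hex (Nat.sub_lt hpos one_pos)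
      push Not at h1
      have h2 : (ℓ : ℝ) ^ Nat.find hex = ℓ * (ℓ : ℝ) ^ (Nat.find hex - 1) := by
        rw [← pow_succ', Nat.sub_add_cancel hpos]
      rw [h2]
      have h3 : ℓ * (ℓ : ℝ) ^ (Nat.find hex - 1) ≤ ℓ * X := by
        exact mul_le_mul_of_nonneg_left h1.le hℓ0.le
      refine h3.trans ?_
      rw [hX]
      nlinarith

theorem specCNT {ℓ : ℕ} [Fact ℓ.Prime] {K : Type*} [NontriviallyNormedField K]
    [NormedAlgebra ℚ_[ℓ] K] [IsUltrametricDist K] [FiniteDimensional ℚ_[ℓ] K] [CharZero K]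
    {Γ : Type*} [Group Γ] [TopologicalSpace Γ] [IsTopologicalGroup Γ] [CompactSpace Γ]
    [T2Space Γ] [TotallyDisconnectedSpace Γ] (Γ0 : Subgroup Γ) [Γ0.Normal] (F : Γ)
    (hF : Dense {g : Γ | ∃ n : ℤ, (F ^ n)⁻¹ * g ∈ Γ0})
    {V : Type*} [AddCommGroup V] [Module K V] [FiniteDimensional K V] (ρ : Representation K Γ V)
    (hc : ∀ (v : V) (f : Module.Dual K V), Continuous fun g => f (ρ g v))
    (q : ℕ) (hq : 2 ≤ q) (d : ℝ) {S : ℕ → Type*} [∀ n, Finite (S n)]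
    (Fr : ∀ n, S n → Γ) (hcheb : EffChebotarev ρ Γ0 F q d Fr) :
    ∃ (U : Subgroup Γ) (m' : ℕ), U.Normal ∧ IsOpen (U : Set Γ) ∧ 1 ≤ m' ∧
      ∃ δ : ℝ, 0 < δ ∧ ∃ C : ℝ, 0 ≤ C ∧ ∀ n : ℕ, 1 ≤ n →
        (({y : S n | Fr n y ∈ BadS ρ Γ0 F U m' n}.ncard : ℕ) : ℝ) ≤
          C * (q : ℝ) ^ ((n : ℝ) * (d - δ)) := by
  classical
  have hℓp : ℓ.Prime := Fact.out
  have hℓ2 : 2 ≤ ℓ := hℓp.two_le
  have hℓ1 : (1 : ℝ) < ℓ := by exact_mod_cast (by omega : 1 < ℓ)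
  have hℓ0 : (0 : ℝ) < ℓ := by linarith
  obtain ⟨U, m', N, Q, κ, C, e, c1, L0, hUn, hUo, hm', hNn, hNo, hNk, hQ, hc1, hL0, hlip, hkey⟩ :=
    classes (ℓ := ℓ) Γ0 F ρ hc
      (fun hint r q' _ x hx => by
        have h1 := specHPW (ρ x) (hint x) r hx q'
        rwa [← map_pow] at h1)
      (by
        rintro ⟨M, hM, h⟩ x k
        refine charpoly_int (ρ x) M hM (fun k => ?_) k
        rw [← map_pow]
        exact h x k)
  refine ⟨U, m', hUn, hUo, hm', ?_⟩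
  have hUfin : Finite (Γ ⧸ U) := Subgroup.quotient_finite_of_isOpen U hUo
  obtain ⟨C2, hC2, hlev⟩ := exists_level hℓ2 c1 L0 hc1 hL0 e
  obtain ⟨A, B, hAB⟩ := hcheb
  obtain ⟨w, hw⟩ : ∃ w : ℕ, Q < ℓ ^ w := pow_unbounded_of_one_lt Q hℓp.one_lt
  obtain ⟨B', hB'⟩ : ∃ B' : ℕ, B ≤ B' := exists_nat_ge B
  set A' : ℝ := max A 0 with hA'
  have hA0 : 0 ≤ A' := le_max_right _ _
  obtain ⟨δ, hδ, C1, hC1, hnum⟩ := specNUM2 q ℓ hq hℓ2 d ((Nat.card (Γ ⧸ U) * C : ℕ) : ℝ)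
    (A' * ((ℓ : ℝ) ^ (w * B') * C2 ^ (w * B'))) ((ℓ : ℝ) ^ (w * κ * B')) (Nat.cast_nonneg _)
    (by positivity) (one_le_pow₀ hℓ1.le) (e * (w * B'))
  refine ⟨δ, hδ, C1, hC1, fun n hn => ?_⟩
  obtain ⟨t, ht⟩ := hnum n
  refine le_trans ?_ ht
  obtain ⟨s, hs1, hs2⟩ := hlev n hn
  have hq0 : (0 : ℝ) < q := by exact_mod_cast (by omega : 0 < q)
  have hnpos : (0 : ℝ) < n := by exact_mod_cast hn
  set j := κ * t + s with hj
  have hNjn : (N j).Normal := hNn _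
  have hfin : Finite (Γ ⧸ N j) := Subgroup.quotient_finite_of_isOpen _ (hNo _)
  have hfi : (N j).FiniteIndex := Subgroup.finiteIndex_of_finite_quotient
  set CC : Set (Γ ⧸ N j) := QuotientGroup.mk '' BadS ρ Γ0 F U m' n with hCC
  set U0 : Subgroup Γ := U ⊓ Γ0 with hU0
  -- the count
  have hcnt : CC.ncard * ℓ ^ t ≤ (Nat.card (Γ ⧸ U) * C) *
      ((QuotientGroup.mk '' (Γ0 : Set Γ)) : Set (Γ ⧸ N j)).ncard := by
    have hcov : CC = ⋃ x : Γ ⧸ U, QuotientGroup.mk '' {h : Γ | h ∈ BadS ρ Γ0 F U m' n ∧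
        (h : Γ ⧸ U) = x} := by
      rw [← Set.image_iUnion, hCC]
      congr 1
      ext h
      simp
    have hle : ((QuotientGroup.mk '' (U0 : Set Γ)) : Set (Γ ⧸ N j)).ncard ≤
        ((QuotientGroup.mk '' (Γ0 : Set Γ)) : Set (Γ ⧸ N j)).ncard := by
      apply Set.ncard_le_ncard _ (Set.toFinite _)
      exact Set.image_mono (fun x hx => hx.2)
    have hx : ∀ x : Γ ⧸ U, ((QuotientGroup.mk '' {h : Γ | h ∈ BadS ρ Γ0 F U m' n ∧
        (h : Γ ⧸ U) = x}) : Set (Γ ⧸ N j)).ncard * ℓ ^ t ≤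
        C * ((QuotientGroup.mk '' (U0 : Set Γ)) : Set (Γ ⧸ N j)).ncard := by
      intro x
      by_cases hemp : ({h : Γ | h ∈ BadS ρ Γ0 F U m' n ∧ (h : Γ ⧸ U) = x}).Nonempty
      · obtain ⟨g, hgB, hgx⟩ := hemp
        obtain ⟨r, hrd, hr, hsub⟩ := hkey n hn g hgB.1
        apply hsub
        · apply Set.image_mono
          rintro h ⟨hh, hhx⟩
          refine ⟨QuotientGroup.eq.1 (hgx.trans hhx.symm), ?_⟩
          have : g⁻¹ * h = ((F ^ n)⁻¹ * g)⁻¹ * ((F ^ n)⁻¹ * h) := by group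
          rw [this]
          exact Γ0.mul_mem (Γ0.inv_mem hgB.1) hh.1
        · rintro h - ⟨h', ⟨hh', hhx'⟩, hhh⟩
          -- the determinant vanishes at `h'`
          have hz : hank r (ρ h') = 0 := by
            obtain ⟨-, x', a, hx'U, ha, hx'F, hlt⟩ := hh'
            apply (specHKL _).2.1
            refine lt_of_lt_of_le hlt (hr x' a ?_ ha hx'F)
            rw [← QuotientGroup.eq, hgx, ← hhx']
            exact QuotientGroup.eq.2 hx'U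
          have hν : h'⁻¹ * h ∈ N j := QuotientGroup.eq.1 hhh
          have h1 := hlip r hrd j h' _ hν
          rw [mul_inv_cancel_left, hz, sub_zero] at h1
          refine h1.trans ?_
          rw [hj, pow_add, mul_inv]
          have h2 : L0 * (((ℓ : ℝ) ^ (κ * t))⁻¹ * ((ℓ : ℝ) ^ s)⁻¹) =
              (L0 * ((ℓ : ℝ) ^ s)⁻¹) * ((ℓ : ℝ) ^ (κ * t))⁻¹ := by ring
          rw [h2]
          exact mul_le_mul_of_nonneg_right hs1 (by positivity)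
      · rw [Set.not_nonempty_iff_eq_empty] at hemp
        rw [hemp]
        simp
    rw [hcov]
    calc _ ≤ Nat.card (Γ ⧸ U) * (C * ((QuotientGroup.mk '' (U0 : Set Γ)) : Set (Γ ⧸ N j)).ncard) :=
          SCA.ncard_iUnion_le' _ _ _ hx
      _ ≤ _ := by
          rw [← mul_assoc]
          exact Nat.mul_le_mul_left _ hle
  -- conjugation invariance
  have hconj : ∀ a ∈ CC, ∀ b : Γ ⧸ N j, b * a * b⁻¹ ∈ CC := by
    rintro _ ⟨h, hh, rfl⟩ b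
    obtain ⟨b0, rfl⟩ := QuotientGroup.mk_surjective b
    obtain ⟨b1, hb1, hb2⟩ : ∃ b1 : Γ, (∃ n : ℤ, (F ^ n)⁻¹ * b1 ∈ Γ0) ∧ b0⁻¹ * b1 ∈ N j := by
      have hopen : IsOpen ((fun x => b0⁻¹ * x) ⁻¹' (N j : Set Γ)) :=
        (hNo _).preimage (continuous_const.mul continuous_id)
      obtain ⟨x, hx1, hx2⟩ := hF.inter_open_nonempty _ hopen ⟨b0, by simp⟩
      exact ⟨x, hx2, hx1⟩
    have hb : (b0 : Γ ⧸ N j) = b1 := QuotientGroup.eq.2 hb2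
    rw [hb]
    obtain ⟨i, hi⟩ := hb1
    have e1 : ((b1 : Γ) : Γ ⧸ Γ0) = (F : Γ ⧸ Γ0) ^ i := by
      rw [← QuotientGroup.mk_zpow]; exact (QuotientGroup.eq.2 hi).symm
    have hcj : ∀ (x : Γ) (a : ℤ), (F ^ a)⁻¹ * x ∈ Γ0 → (F ^ a)⁻¹ * (b1 * x * b1⁻¹) ∈ Γ0 := by
      intro x a hx
      have e2 : ((x : Γ) : Γ ⧸ Γ0) = (F : Γ ⧸ Γ0) ^ a := by
        rw [← QuotientGroup.mk_zpow]; exact (QuotientGroup.eq.2 hx).symm
      rw [← QuotientGroup.eq]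
      have e3 : ((b1 * x * b1⁻¹ : Γ) : Γ ⧸ Γ0) = (b1 : Γ ⧸ Γ0) * x * (b1 : Γ ⧸ Γ0)⁻¹ := by simp
      rw [e3, e1, e2, QuotientGroup.mk_zpow, ← zpow_neg, ← zpow_add, ← zpow_add]
      congr 1
      ring
    obtain ⟨hhn, x, a, hxU, ha, hxF, hlt⟩ := hh
    refine ⟨b1 * h * b1⁻¹, ⟨?_, b1 * x * b1⁻¹, a, ?_, ha, hcj x a hxF, ?_⟩, by simp⟩
    · have := hcj h n (by rw [zpow_natCast]; exact hhn)
      rwa [zpow_natCast] at this
    · have : (b1 * h * b1⁻¹)⁻¹ * (b1 * x * b1⁻¹) = b1 * (h⁻¹ * x) * b1⁻¹ := by group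
      rw [this]
      exact hUn.conj_mem _ hxU b1
    · rw [MAXF.nEig_conj, MAXF.nEig_conj]
      exact hlt
  have hsub := hAB n hn (N j) (hNo _) (hNk _) CC hconj
  have hcard1 : (1 : ℝ) ≤ Nat.card (Γ ⧸ N j) := by exact_mod_cast Nat.card_pos
  have hstep1 : (({y : S n | Fr n y ∈ BadS ρ Γ0 F U m' n}.ncard : ℕ) : ℝ) ≤
      (({y : S n | ((Fr n y : Γ) : Γ ⧸ N j) ∈ CC}.ncard : ℕ) : ℝ) := by
    refine Nat.cast_le.2 (Set.ncard_le_ncard ?_ (Set.toFinite _))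
    intro y hy
    exact ⟨Fr n y, hy, rfl⟩
  refine hstep1.trans (hsub.trans (add_le_add ?_ ?_))
  · refine mul_le_mul_of_nonneg_right ?_ (Real.rpow_nonneg hq0.le _)
    have hG0 : 0 < (((QuotientGroup.mk '' (Γ0 : Set Γ)) : Set (Γ ⧸ N j)).ncard : ℝ) := by
      have : 0 < ((QuotientGroup.mk '' (Γ0 : Set Γ)) : Set (Γ ⧸ N j)).ncard :=
        (Set.ncard_pos (Set.toFinite _)).2 ⟨_, 1, one_mem _, rfl⟩
      exact_mod_cast this
    rw [div_le_iff₀ hG0]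
    have h1 : ((CC ∩ (QuotientGroup.mk '' degSet Γ0 F n)).ncard : ℝ) ≤ (CC.ncard : ℝ) :=
      Nat.cast_le.2 (Set.ncard_le_ncard Set.inter_subset_left (Set.toFinite _))
    have h2 : (CC.ncard : ℝ) * (ℓ : ℝ) ^ t ≤ ((Nat.card (Γ ⧸ U) * C : ℕ) : ℝ) *
        (((QuotientGroup.mk '' (Γ0 : Set Γ)) : Set (Γ ⧸ N j)).ncard : ℝ) := by
      exact_mod_cast hcnt
    refine h1.trans ?_
    have h3 : (CC.ncard : ℝ) ≤ (((Nat.card (Γ ⧸ U) * C : ℕ) : ℝ) *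
        (((QuotientGroup.mk '' (Γ0 : Set Γ)) : Set (Γ ⧸ N j)).ncard : ℝ)) * ((ℓ : ℝ) ^ t)⁻¹ := by
      rw [le_mul_inv_iff₀ (pow_pos hℓ0 _)]
      exact h2
    refine h3.trans (le_of_eq ?_)
    ring
  · refine mul_le_mul_of_nonneg_right ?_ (Real.rpow_nonneg hq0.le _)
    have h1 : (Nat.card (Γ ⧸ N j) : ℝ) ^ B ≤ (Nat.card (Γ ⧸ N j) : ℝ) ^ B' := by
      rw [← Real.rpow_natCast]
      exact Real.rpow_le_rpow_of_exponent_le hcard1 hB'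
    have h2 : (Nat.card (Γ ⧸ N j) : ℝ) ≤ (ℓ : ℝ) ^ (w * (j + 1)) := by
      refine le_trans (b := (Q : ℝ) ^ (j + 1)) (by exact_mod_cast hQ j) ?_
      rw [pow_mul]
      exact pow_le_pow_left₀ (Nat.cast_nonneg _) (by exact_mod_cast hw.le) _
    have h3 : (Nat.card (Γ ⧸ N j) : ℝ) ^ B' ≤ ((ℓ : ℝ) ^ (w * (j + 1))) ^ B' :=
      pow_le_pow_left₀ (by linarith) h2 _
    have h4 : ((ℓ : ℝ) ^ (w * (j + 1))) ^ B' =
        (ℓ : ℝ) ^ (w * B') * ((ℓ : ℝ) ^ s) ^ (w * B') * ((ℓ : ℝ) ^ (w * κ * B')) ^ t := by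
      rw [← pow_mul, ← pow_mul, ← pow_mul, ← pow_add, ← pow_add]
      congr 1
      rw [hj]
      ring
    have h5 : ((ℓ : ℝ) ^ s) ^ (w * B') ≤ C2 ^ (w * B') * (n : ℝ) ^ (e * (w * B')) := by
      rw [pow_mul (n : ℝ) e, ← mul_pow]
      exact pow_le_pow_left₀ (by positivity) hs2 _
    calc A * (Nat.card (Γ ⧸ N j) : ℝ) ^ B
        ≤ A' * (Nat.card (Γ ⧸ N j) : ℝ) ^ B :=
          mul_le_mul_of_nonneg_right (le_max_left _ _) (by positivity)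
      _ ≤ A' * ((ℓ : ℝ) ^ (w * B') * ((ℓ : ℝ) ^ s) ^ (w * B') * ((ℓ : ℝ) ^ (w * κ * B')) ^ t) :=
          mul_le_mul_of_nonneg_left (h1.trans (h3.trans h4.le)) hA0
      _ ≤ A' * ((ℓ : ℝ) ^ (w * B') * (C2 ^ (w * B') * (n : ℝ) ^ (e * (w * B'))) *
            ((ℓ : ℝ) ^ (w * κ * B')) ^ t) := by
          gcongr
      _ = _ := by ring

end MPb685PA
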