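import Pool.Agent.Lib.MP_b685ef_ag.PS.SUB

/-!
MP_b685ef_ag, power saving for all l: the dichotomy along one translation for arbitrary integers.
-/

open Finset MPb685ZO MPb685PS MPb685PS.SUB

namespace MPb685PA

section dich

variable {ℓ : ℕ} [hl : Fact ℓ.Prime] {K : Type*} [NontriviallyNormedField K]
  [IsUltrametricDist K] {Γ : Type*} [Group Γ]

theorem dich2 (hK : ∀ m : ℤ, ‖(m : K)‖ = ‖(m : ℚ_[ℓ])‖) (E : Submodule K (Γ → K))
    (hleft : ∀ f ∈ E, ∀ x : Γ, (fun y => f (x * y)) ∈ E) {r : ℕ} (hr : 0 < r)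
    (b : Module.Basis (Fin r) K E) (u : Γ)
    (hu : ∀ i j, ‖LinearMap.toMatrix b b (tr E hleft u) i j
      - (1 : Matrix (Fin r) (Fin r) K) i j‖ < ((ℓ : ℝ) ^ (r + 1))⁻¹)
    (f : Γ → K) (hf : f ∈ E) (h σ : Γ) (k : ℕ) (ε : ℝ) (s : Finset ℕ) (hscard : s.card = r)
    (hpw : ∀ x ∈ s, ∀ y ∈ s, x ≠ y → ¬ ((ℓ : ℤ) ^ k ∣ (x : ℤ) - y))
    (hsm : ∀ t ∈ s, ‖f (h * u ^ t * σ)‖ ≤ ε) :
    ∀ t, ‖f (h * u ^ t * σ)‖ ≤ ε * (ℓ : ℝ) ^ (k * (r - 1)) := by
  classical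
  intro t0
  have hl0 : (0 : ℝ) < ℓ := by exact_mod_cast hl.out.pos
  have hl1 : (1 : ℝ) < ℓ := by exact_mod_cast hl.out.one_lt
  have hlK : ‖(ℓ : K)‖ = (ℓ : ℝ)⁻¹ := by
    have h1 := hK (ℓ : ℤ)
    simp only [Int.cast_natCast] at h1
    rw [h1, Padic.norm_p]
  have hlK0 : (ℓ : K) ≠ 0 := by
    rw [← norm_pos_iff, hlK]; positivity
  set A : Module.End K E := tr E hleft u - 1 with hA
  set M : Module.End K E := ((ℓ : K) ^ (r + 1))⁻¹ • A with hM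
  have hAM : A = (ℓ : K) ^ (r + 1) • M := by
    rw [hM, smul_smul, mul_inv_cancel₀ (pow_ne_zero _ hlK0), one_smul]
  have hMint : ∀ i j, ‖LinearMap.toMatrix b b M i j‖ ≤ 1 := by
    intro i j
    rw [hM, hA, toM_sub_one, norm_mul, norm_inv, norm_pow, hlK]
    have h1 := (hu i j).le
    have h2 : (((ℓ : ℝ)⁻¹) ^ (r + 1))⁻¹ = (ℓ : ℝ) ^ (r + 1) := by
      rw [inv_pow, inv_inv]
    rw [h2]
    have h3 : (0 : ℝ) < (ℓ : ℝ) ^ (r + 1) := by positivity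
    calc (ℓ : ℝ) ^ (r + 1) * ‖LinearMap.toMatrix b b (tr E hleft u) i j
          - (1 : Matrix (Fin r) (Fin r) K) i j‖
        ≤ (ℓ : ℝ) ^ (r + 1) * ((ℓ : ℝ) ^ (r + 1))⁻¹ := mul_le_mul_of_nonneg_left h1 h3.le
      _ = 1 := mul_inv_cancel₀ h3.ne'
  -- the functional and the vector
  let φ : E →ₗ[K] K :=
    { toFun := fun f => f.1 σ
      map_add' := fun _ _ => rfl
      map_smul' := fun _ _ => rfl }
  set v : E := tr E hleft h ⟨f, hf⟩ with hv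
  set e : ℕ → K := fun t => f (h * u ^ t * σ) with he
  set a : ℕ → K := fun j => φ ((A ^ j) v) with ha
  have hepow : ∀ t, e t = φ (((tr E hleft u) ^ t) v) := by
    intro t
    show f (h * u ^ t * σ) = (((tr E hleft u) ^ t) v).1 σ
    rw [tr_pow_apply, hv, tr_apply, mul_assoc]
  have hsum : ∀ t, e t = ∑ j ∈ range (t + 1), ((t.choose j : ℕ) : K) * a j := by
    intro t
    have h1 : tr E hleft u = A + 1 := by rw [hA]; abel
    rw [hepow, h1, (Commute.one_right A).add_pow t, LinearMap.sum_apply, map_sum]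
    refine Finset.sum_congr rfl fun j _ => ?_
    rw [one_pow, mul_one, Module.End.mul_apply, Module.End.natCast_apply, ← Nat.cast_smul_eq_nsmul K,
      map_smul, map_smul, smul_eq_mul]
  have hpow : ∀ j, A ^ j = ((ℓ : K) ^ ((r + 1) * j)) • M ^ j := by
    intro j
    rw [hAM, _root_.smul_pow, ← pow_mul]
  have haM : ∀ j, ‖a j‖ * (ℓ : ℝ) ^ ((r + 1) * j) = ‖φ ((M ^ j) v)‖ := by
    intro j
    show ‖φ ((A ^ j) v)‖ * _ = _
    rw [hpow, LinearMap.smul_apply, map_smul, smul_eq_mul, norm_mul, norm_pow, hlK, inv_pow]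
    have h3 : (0 : ℝ) < (ℓ : ℝ) ^ ((r + 1) * j) := by positivity
    field_simp
  obtain ⟨i0, hi0, himax⟩ := Finset.exists_max_image (range r) (fun i => ‖a i‖)
    ⟨0, Finset.mem_range.mpr hr⟩
  set S : ℝ := ‖a i0‖ with hS
  have hS0 : 0 ≤ S := norm_nonneg _
  have horb : ∀ j, ‖φ ((M ^ j) v)‖ ≤ (ℓ : ℝ) ^ ((r + 1) * (r - 1)) * S := by
    intro j
    refine orbit_bound b M hMint φ v _ ?_ (by positivity) j
    intro i hi
    rw [Fintype.card_fin] at hi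
    rw [← haM, mul_comm]
    refine mul_le_mul ?_ (himax i (Finset.mem_range.mpr hi)) (norm_nonneg _) (by positivity)
    exact pow_le_pow_right₀ hl1.le (Nat.mul_le_mul_left _ (by omega))
  have hhigh : ∀ j, r ≤ j → ‖a j‖ * (ℓ : ℝ) ^ j ≤ S / ℓ := by
    intro j hj
    rw [le_div_iff₀ hl0]
    have h1 : ‖a j‖ * (ℓ : ℝ) ^ ((r + 1) * j) ≤ (ℓ : ℝ) ^ ((r + 1) * (r - 1)) * S := by
      rw [haM]; exact horb j
    have h2 : ‖a j‖ * (ℓ : ℝ) ^ j * ℓ * (ℓ : ℝ) ^ ((r + 1) * (r - 1))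
        ≤ ‖a j‖ * (ℓ : ℝ) ^ ((r + 1) * j) := by
      have h3 : ‖a j‖ * (ℓ : ℝ) ^ j * ℓ * (ℓ : ℝ) ^ ((r + 1) * (r - 1))
          = ‖a j‖ * (ℓ : ℝ) ^ (j + 1 + (r + 1) * (r - 1)) := by
        rw [pow_add, pow_succ]; ring
      rw [h3]
      refine mul_le_mul_of_nonneg_left (pow_le_pow_right₀ hl1.le ?_) (norm_nonneg _)
      obtain ⟨r', rfl⟩ := Nat.exists_eq_succ_of_ne_zero hr.ne'
      obtain ⟨m, rfl⟩ := Nat.exists_eq_add_of_le hj
      simp only [Nat.succ_eq_add_one, Nat.add_sub_cancel]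
      nlinarith
    have h4 : (0 : ℝ) < (ℓ : ℝ) ^ ((r + 1) * (r - 1)) := by positivity
    have h5 := le_trans h2 h1
    rw [mul_comm ((ℓ : ℝ) ^ ((r + 1) * (r - 1))) S] at h5
    exact le_of_mul_le_mul_right h5 h4
  have hall : ∀ j, ‖a j‖ ≤ S := by
    intro j
    by_cases hj : j < r
    · exact himax j (Finset.mem_range.mpr hj)
    · have h1 := hhigh j (not_lt.mp hj)
      have h2 : ‖a j‖ ≤ ‖a j‖ * (ℓ : ℝ) ^ j :=
        le_mul_of_one_le_right (norm_nonneg _) (one_le_pow₀ hl1.le)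
      have h3 : S / ℓ ≤ S := div_le_self hS0 hl1.le
      linarith
  have hfin := OneVar.oneVar hK e a hsum r S hS0 ⟨i0, rfl⟩ hhigh k s hscard hr
    hpw ε (fun x hx => hsm x hx)
  have hbig : ‖e t0‖ ≤ S := by
    rw [hsum]
    refine IsUltrametricDist.norm_sum_le_of_forall_le_of_nonneg hS0 ?_
    intro j _
    rw [norm_mul]
    calc ‖((t0.choose j : ℕ) : K)‖ * ‖a j‖ ≤ 1 * S :=
          mul_le_mul (OneVar.norm_nat_le hK _) (hall j) (norm_nonneg _) zero_le_one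
      _ = S := one_mul S
  exact le_trans hbig hfin

end dich

end MPb685PA
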