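import Pool.Agent.Lib.MP_b685ef_ag.PS.LEV
import Pool.Agent.Lib.MP_b685ef_ag.PS.SUB

/-!
MP_b685ef_ag, power saving for all l: the congruence subgroups (specLEV) with two more properties:
the l-th powers of `N m` are in `N (m + 1)`, and the characteristic polynomials of the elements of
`N 1` are integral.
-/

open MPb685ZO MPb685PS

namespace MPb685PA

theorem specLEV2 {ℓ : ℕ} [Fact ℓ.Prime] {K : Type*} [NontriviallyNormedField K]
    [NormedAlgebra ℚ_[ℓ] K] [IsUltrametricDist K] [FiniteDimensional ℚ_[ℓ] K]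
    {Γ : Type*} [Group Γ] [TopologicalSpace Γ] [IsTopologicalGroup Γ] [CompactSpace Γ]
    {V : Type*} [AddCommGroup V] [Module K V] [FiniteDimensional K V] (ρ : Representation K Γ V)
    (hc : ∀ (v : V) (f : Module.Dual K V), Continuous fun g => f (ρ g v)) :
    ∃ N : ℕ → Subgroup Γ, (∀ m, (N m).Normal) ∧ (∀ m, IsOpen (N m : Set Γ)) ∧
      (∀ m g, ρ g = 1 → g ∈ N m) ∧ (∃ Q : ℕ, ∀ m, Nat.card (Γ ⧸ N m) ≤ Q ^ (m + 1)) ∧
      (∀ f ∈ (Algebra.adjoin K {f : Γ → K | ∃ (v : V) (φ : Module.Dual K V),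
        f = fun g => φ (ρ g v)} : Subalgebra K (Γ → K)),
        ∃ C : ℝ, ∀ m, ∀ g : Γ, ∀ ν ∈ N m, ‖f (g * ν) - f g‖ ≤ C * ((ℓ : ℝ) ^ m)⁻¹) ∧
      (∀ m, 1 ≤ m → ∀ g ∈ N m, g ^ ℓ ∈ N (m + 1)) ∧
      (∀ g ∈ N 1, ∀ k, ‖(LinearMap.charpoly (ρ g)).coeff k‖ ≤ 1) := by
  classical
  set n := Module.finrank K V with hn
  let b : Module.Basis (Fin n) K V := Module.finBasis K V
  let M : Γ → Matrix (Fin n) (Fin n) K := fun g => LinearMap.toMatrix b b (ρ g)
  have hMmul : ∀ g h, M (g * h) = M g * M h := by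
    intro g h
    simp only [M, map_mul]
    exact LinearMap.toMatrix_mul b (ρ g) (ρ h)
  have hMone : M 1 = 1 := by
    simp only [M, map_one]
    exact LinearMap.toMatrix_one b
  have hMinv : ∀ g, M g⁻¹ * M g = 1 := by
    intro g; rw [← hMmul, inv_mul_cancel, hMone]
  have hMapp : ∀ g i j, M g i j = b.coord i (ρ g (b j)) := by
    intro g i j
    simp only [M, LinearMap.toMatrix_apply]
    rfl
  have hMc : ∀ i j, Continuous fun g => M g i j := by
    intro i j
    simp only [hMapp]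
    exact hc (b j) (b.coord i)
  have hl1 : 1 < (ℓ : ℝ) := by exact_mod_cast (Fact.out : ℓ.Prime).one_lt
  have hlpos : 0 < (ℓ : ℝ) := by linarith
  -- the bound R
  obtain ⟨R, hR1, hR⟩ : ∃ R : ℝ, 1 ≤ R ∧ ∀ g, LEV.bd R (M g) := by
    have hF : Continuous (fun g => fun i j => M g i j : Γ → Fin n → Fin n → K) :=
      continuous_pi fun i => continuous_pi fun j => hMc i j
    obtain ⟨C, hC⟩ := isCompact_univ.exists_bound_of_continuousOn hF.continuousOn
    refine ⟨max 1 C, le_max_left _ _, fun g i j => ?_⟩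
    have h1 := hC g (Set.mem_univ g)
    have h2 : ‖M g i j‖ ≤ ‖fun i j => M g i j‖ :=
      (norm_le_pi_norm (fun j => M g i j) j).trans (norm_le_pi_norm (fun i j => M g i j) i)
    exact (h2.trans h1).trans (le_max_right _ _)
  have hR0 : 0 ≤ R := by linarith
  have hlam : ∀ m : ℕ, 0 < ((ℓ : ℝ) ^ m)⁻¹ := fun m => by positivity
  have hlam1 : ∀ m : ℕ, ((ℓ : ℝ) ^ m)⁻¹ ≤ 1 := fun m => by
    apply inv_le_one_of_one_le₀
    exact one_le_pow₀ hl1.le
  -- the subgroups
  have hbd1 : ∀ (m : ℕ) (g : Γ), LEV.bd ((ℓ : ℝ) ^ m)⁻¹ (M g - 1) → LEV.bd 1 (M g) := by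
    intro m g hg
    have h1 := LEV.bd_add (LEV.bd_mono (hlam1 m) hg) (LEV.bd_one (K := K) (n := n))
    simpa using h1
  have hprod : ∀ (m : ℕ) (g h : Γ), LEV.bd ((ℓ : ℝ) ^ m)⁻¹ (M g - 1) →
      LEV.bd ((ℓ : ℝ) ^ m)⁻¹ (M h - 1) → LEV.bd ((ℓ : ℝ) ^ m)⁻¹ (M (g * h) - 1) := by
    intro m g h hg hh
    have h1 := LEV.bd_mul zero_le_one (hlam m).le (hbd1 m g hg) hh
    have h2 : M (g * h) - 1 = M g * (M h - 1) + (M g - 1) := by
      rw [hMmul, mul_sub, mul_one]; abel
    rw [h2]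
    refine LEV.bd_add ?_ hg
    simpa using h1
  let N : ℕ → Subgroup Γ := fun m =>
    { carrier := {g | ∀ h, LEV.bd ((ℓ : ℝ) ^ m)⁻¹ (M (h * g * h⁻¹) - 1) ∧
        LEV.bd ((ℓ : ℝ) ^ m)⁻¹ (M (h * g⁻¹ * h⁻¹) - 1)}
      one_mem' := by
        intro h
        have h0 : LEV.bd ((ℓ : ℝ) ^ m)⁻¹ (0 : Matrix (Fin n) (Fin n) K) := by
          intro i j; simpa using (hlam m).le
        constructor
        · simpa [hMone] using h0
        · simpa [hMone] using h0
      mul_mem' := by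
        intro a c ha hc' h
        constructor
        · have h1 := hprod m _ _ (ha h).1 (hc' h).1
          have h2 : h * a * h⁻¹ * (h * c * h⁻¹) = h * (a * c) * h⁻¹ := by group
          rwa [h2] at h1
        · have h1 := hprod m _ _ (hc' h).2 (ha h).2
          have h2 : h * c⁻¹ * h⁻¹ * (h * a⁻¹ * h⁻¹) = h * (a * c)⁻¹ * h⁻¹ := by group
          rwa [h2] at h1
      inv_mem' := by
        intro a ha h
        refine ⟨(ha h).2, ?_⟩
        simpa using (ha h).1 }
  have hNmem : ∀ m g, g ∈ N m ↔ ∀ h, LEV.bd ((ℓ : ℝ) ^ m)⁻¹ (M (h * g * h⁻¹) - 1) ∧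
        LEV.bd ((ℓ : ℝ) ^ m)⁻¹ (M (h * g⁻¹ * h⁻¹) - 1) := fun m g => Iff.rfl
  -- closeness implies congruence
  have hclose : ∀ (m : ℕ) (g g' : Γ), LEV.bd (((ℓ : ℝ) ^ m)⁻¹ / R ^ 3) (M g' - M g) →
      g⁻¹ * g' ∈ N m := by
    intro m g g' hgg
    have key : ∀ (x y : Γ), LEV.bd (((ℓ : ℝ) ^ m)⁻¹ / R ^ 3) (M y - M x) → ∀ h : Γ,
        LEV.bd ((ℓ : ℝ) ^ m)⁻¹ (M (h * (x⁻¹ * y) * h⁻¹) - 1) := by
      intro x y hxy h
      have h1 : M (h * (x⁻¹ * y) * h⁻¹) - 1 = M h * M x⁻¹ * (M y - M x) * M h⁻¹ := by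
        have e1 : M (h * (x⁻¹ * y) * h⁻¹) = M h * M x⁻¹ * M y * M h⁻¹ := by
          rw [hMmul, hMmul, hMmul, ← mul_assoc]
        have e2 : M h * M x⁻¹ * M x * M h⁻¹ = 1 := by
          rw [mul_assoc (M h), hMinv, mul_one, ← hMmul, mul_inv_cancel, hMone]
        rw [mul_sub, sub_mul, e2, e1]
      rw [h1]
      have hR3 : 0 < R ^ 3 := by positivity
      have h2 := LEV.bd_mul (by positivity) hR0 (LEV.bd_mul (by positivity) (by positivity)
        (LEV.bd_mul hR0 hR0 (hR h) (hR x⁻¹)) hxy) (hR h⁻¹)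
      refine LEV.bd_mono (le_of_eq ?_) h2
      field_simp
    rw [hNmem]
    intro h
    refine ⟨key g g' hgg h, ?_⟩
    have h2 : (g⁻¹ * g')⁻¹ = g'⁻¹ * g := by group
    rw [h2]
    refine key g' g ?_ h
    have := LEV.bd_neg hgg
    simpa using this
  -- powers
  have hpowℓ : ∀ (m : ℕ), 1 ≤ m → ∀ g : Γ, LEV.bd ((ℓ : ℝ) ^ m)⁻¹ (M g - 1) →
      LEV.bd ((ℓ : ℝ) ^ (m + 1))⁻¹ (M (g ^ ℓ) - 1) := by
    intro m hm g hg
    have hMpow : ∀ i : ℕ, M (g ^ i) = (M g) ^ i := by
      intro i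
      induction i with
      | zero => rw [pow_zero, pow_zero, hMone]
      | succ i ih => rw [pow_succ, pow_succ, hMmul, ih]
    have hpi : ∀ i : ℕ, LEV.bd ((ℓ : ℝ) ^ m)⁻¹ (M g ^ i - 1) := by
      intro i
      induction i with
      | zero => intro a c; simp
      | succ i ih =>
        have h1 := hprod m (g ^ i) g (by rw [hMpow]; exact ih) hg
        rwa [← pow_succ, hMpow] at h1
    have hsum : LEV.bd ((ℓ : ℝ))⁻¹ (∑ i ∈ Finset.range ℓ, M g ^ i) := by
      have h1 : ∑ i ∈ Finset.range ℓ, M g ^ i =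
          (∑ i ∈ Finset.range ℓ, (M g ^ i - 1)) + ((ℓ : ℕ) : Matrix (Fin n) (Fin n) K) := by
        rw [Finset.sum_sub_distrib, Finset.sum_const, Finset.card_range, nsmul_eq_mul, mul_one]
        abel
      rw [h1]
      refine LEV.bd_add ?_ ?_
      · have h2 : ∀ T : Finset ℕ, LEV.bd ((ℓ : ℝ))⁻¹ (∑ i ∈ T, (M g ^ i - 1)) := by
          intro T
          induction T using Finset.induction_on with
          | empty =>
            intro a c
            simp only [Finset.sum_empty, Matrix.zero_apply, norm_zero]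
            positivity
          | insert a T ha ih =>
            rw [Finset.sum_insert ha]
            refine LEV.bd_add (LEV.bd_mono ?_ (hpi a)) ih
            apply inv_anti₀ hlpos
            calc (ℓ : ℝ) = (ℓ : ℝ) ^ 1 := (pow_one _).symm
              _ ≤ (ℓ : ℝ) ^ m := pow_le_pow_right₀ hl1.le hm
        exact h2 _
      · intro a c
        have h2 : ((ℓ : ℕ) : Matrix (Fin n) (Fin n) K) a c = if a = c then ((ℓ : ℕ) : K) else 0 := by
          rw [← Matrix.diagonal_natCast, Matrix.diagonal_apply]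
        rw [h2]
        split_ifs
        · rw [LEV.norm_l]
        · rw [norm_zero]; positivity
    have h3 : M (g ^ ℓ) - 1 = (∑ i ∈ Finset.range ℓ, M g ^ i) * (M g - 1) := by
      rw [hMpow, geom_sum_mul]
    rw [h3]
    have h4 := LEV.bd_mul (by positivity) (hlam m).le hsum hg
    refine LEV.bd_mono (le_of_eq ?_) h4
    rw [pow_succ, mul_inv, mul_comm]
  refine ⟨N, ?_, ?_, ?_, ?_, ?_, ?_, ?_⟩
  · -- normal
    intro m
    refine ⟨fun a ha k => ?_⟩
    rw [hNmem] at ha ⊢
    intro h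
    have h1 := ha (h * k)
    have e1 : h * k * a * (h * k)⁻¹ = h * (k * a * k⁻¹) * h⁻¹ := by group
    have e2 : h * k * a⁻¹ * (h * k)⁻¹ = h * (k * a * k⁻¹)⁻¹ * h⁻¹ := by group
    rwa [e1, e2] at h1
  · -- open
    intro m
    refine Subgroup.isOpen_of_mem_nhds (N m) (g := 1) ?_
    have hε : 0 < ((ℓ : ℝ) ^ m)⁻¹ / R ^ 3 := by positivity
    have hev : ∀ i j, ∀ᶠ g in nhds (1 : Γ), ‖M g i j - M 1 i j‖ ≤ ((ℓ : ℝ) ^ m)⁻¹ / R ^ 3 := by
      intro i j
      have h1 : Filter.Tendsto (fun g => ‖M g i j - M 1 i j‖) (nhds (1 : Γ)) (nhds 0) := by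
        have h2 : Continuous (fun g => ‖M g i j - M 1 i j‖) :=
          ((hMc i j).sub continuous_const).norm
        have h3 := h2.tendsto (1 : Γ)
        simpa using h3
      exact (h1.eventually (gt_mem_nhds hε)).mono fun g hg => le_of_lt hg
    have hev2 : ∀ᶠ g in nhds (1 : Γ), ∀ i j, ‖M g i j - M 1 i j‖ ≤ ((ℓ : ℝ) ^ m)⁻¹ / R ^ 3 := by
      rw [Filter.eventually_all]
      intro i
      rw [Filter.eventually_all]
      intro j
      exact hev i j
    filter_upwards [hev2] with g hg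
    have h1 : (1 : Γ)⁻¹ * g ∈ N m := hclose m 1 g (fun i j => hg i j)
    simpa using h1
  · -- the kernel
    intro m g hg
    have hMg : M g = 1 := by
      simp only [M, hg]
      exact LinearMap.toMatrix_one b
    have h1 : (1 : Γ)⁻¹ * g ∈ N m := by
      refine hclose m 1 g ?_
      intro i j
      have hR3 : 0 < R ^ 3 := by positivity
      rw [hMg, hMone, sub_self]
      have : (0 : ℝ) ≤ ((ℓ : ℝ) ^ m)⁻¹ / R ^ 3 := div_nonneg (hlam m).le hR3.le
      simpa using this
    simpa using h1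
  · -- the index
    obtain ⟨s, hs1, hs⟩ := LEV.cover_pow (ℓ := ℓ) (K := K)
    obtain ⟨a, ha⟩ := pow_unbounded_of_one_lt (R ^ 3) hl1
    have hlK : ((ℓ : ℕ) : K) ≠ 0 := by
      intro h
      have h1 := LEV.norm_l (ℓ := ℓ) (K := K)
      rw [h, norm_zero] at h1
      have : (0 : ℝ) < ((ℓ : ℝ))⁻¹ := by positivity
      linarith
    refine ⟨s ^ ((2 * a + 1) * (n * n)), fun m => ?_⟩
    obtain ⟨T, hTc, hT⟩ := hs (m + 2 * a)
    have hRa : R ≤ (ℓ : ℝ) ^ a := by
      have : R ≤ R ^ 3 := by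
        calc R = R ^ 1 := (pow_one R).symm
          _ ≤ R ^ 3 := pow_le_pow_right₀ hR1 (by norm_num)
      linarith
    have hcell : ∀ (g : Γ) (i j : Fin n), ∃ t : T,
        ‖M g i j * ((ℓ : ℕ) : K) ^ a - t‖ ≤ ((ℓ : ℝ) ^ (m + 2 * a))⁻¹ := by
      intro g i j
      have h1 : ‖M g i j * ((ℓ : ℕ) : K) ^ a‖ ≤ 1 := by
        rw [norm_mul, norm_pow, LEV.norm_l, inv_pow, ← div_eq_mul_inv,
          div_le_one (by positivity)]
        exact (hR g i j).trans hRa
      obtain ⟨t, ht, h2⟩ := hT _ h1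
      exact ⟨⟨t, ht⟩, h2⟩
    choose cell hcell using hcell
    let Φ : Γ ⧸ N m → (Fin n → Fin n → T) := fun x => fun i j => cell (Quotient.out x) i j
    have hΦ : Function.Injective Φ := by
      intro x y hxy
      have h1 : ∀ i j, cell (Quotient.out x) i j = cell (Quotient.out y) i j := fun i j =>
        congrFun (congrFun hxy i) j
      have h2 : (Quotient.out x)⁻¹ * Quotient.out y ∈ N m := by
        refine hclose m _ _ ?_
        intro i j
        have e1 := hcell (Quotient.out x) i j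
        have e2 := hcell (Quotient.out y) i j
        rw [h1 i j] at e1
        have e3 : ‖M (Quotient.out y) i j * ((ℓ : ℕ) : K) ^ a -
            M (Quotient.out x) i j * ((ℓ : ℕ) : K) ^ a‖ ≤ ((ℓ : ℝ) ^ (m + 2 * a))⁻¹ := by
          have e4 : M (Quotient.out y) i j * ((ℓ : ℕ) : K) ^ a -
              M (Quotient.out x) i j * ((ℓ : ℕ) : K) ^ a =
              (M (Quotient.out y) i j * ((ℓ : ℕ) : K) ^ a - (cell (Quotient.out y) i j : K)) -
              (M (Quotient.out x) i j * ((ℓ : ℕ) : K) ^ a - (cell (Quotient.out y) i j : K)) := by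
            ring
          rw [e4]
          rw [sub_eq_add_neg]
          refine (IsUltrametricDist.norm_add_le_max _ _).trans (max_le e2 ?_)
          rw [norm_neg]
          exact e1
        rw [← sub_mul, norm_mul, norm_pow, LEV.norm_l, inv_pow, ← div_eq_mul_inv,
          div_le_iff₀ (by positivity)] at e3
        rw [Matrix.sub_apply]
        refine e3.trans ?_
        rw [pow_add, two_mul, pow_add, mul_inv, mul_inv, div_eq_mul_inv]
        have hla : 0 < (ℓ : ℝ) ^ a := by positivity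
        have hR3 : 0 < R ^ 3 := by positivity
        have e5 : ((ℓ : ℝ) ^ m)⁻¹ * (((ℓ : ℝ) ^ a)⁻¹ * ((ℓ : ℝ) ^ a)⁻¹) * (ℓ : ℝ) ^ a =
            ((ℓ : ℝ) ^ m)⁻¹ * ((ℓ : ℝ) ^ a)⁻¹ := by
          field_simp
        rw [e5]
        refine mul_le_mul_of_nonneg_left ?_ (hlam m).le
        exact inv_anti₀ hR3 ha.le
      have h3 : ((Quotient.out x : Γ) : Γ ⧸ N m) = ((Quotient.out y : Γ) : Γ ⧸ N m) :=
        QuotientGroup.eq.mpr h2
      rwa [QuotientGroup.out_eq', QuotientGroup.out_eq'] at h3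
    have h1 := Nat.card_le_card_of_injective Φ hΦ
    refine h1.trans ?_
    have h2 : Nat.card (Fin n → Fin n → T) = T.card ^ (n * n) := by
      rw [Nat.card_eq_fintype_card, Fintype.card_fun, Fintype.card_fun]
      simp [pow_mul]
    rw [h2]
    calc T.card ^ (n * n) ≤ (s ^ (m + 2 * a)) ^ (n * n) := Nat.pow_le_pow_left hTc _
      _ = s ^ ((m + 2 * a) * (n * n)) := (pow_mul _ _ _).symm
      _ ≤ s ^ ((2 * a + 1) * (n * n) * (m + 1)) := by
        refine Nat.pow_le_pow_right hs1 ?_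
        have : m + 2 * a ≤ (2 * a + 1) * (m + 1) := by nlinarith
        calc (m + 2 * a) * (n * n) ≤ ((2 * a + 1) * (m + 1)) * (n * n) :=
              Nat.mul_le_mul_right _ this
          _ = (2 * a + 1) * (n * n) * (m + 1) := by ring
      _ = (s ^ ((2 * a + 1) * (n * n))) ^ (m + 1) := pow_mul _ _ _
  · -- the functions
    let S : Subalgebra K (Γ → K) :=
      { carrier := {f | (∃ B : ℝ, 0 ≤ B ∧ ∀ g, ‖f g‖ ≤ B) ∧ ∃ C : ℝ, 0 ≤ C ∧ ∀ m, ∀ g : Γ,
          ∀ ν ∈ N m, ‖f (g * ν) - f g‖ ≤ C * ((ℓ : ℝ) ^ m)⁻¹}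
        mul_mem' := by
          rintro f f' ⟨⟨B, hB0, hB⟩, C, hC0, hC⟩ ⟨⟨B', hB0', hB'⟩, C', hC0', hC'⟩
          refine ⟨⟨B * B', by positivity, fun g => ?_⟩, B * C' + C * B', by positivity,
            fun m g ν hν => ?_⟩
          · rw [Pi.mul_apply, norm_mul]
            exact mul_le_mul (hB g) (hB' g) (norm_nonneg _) hB0
          · have e : (f * f') (g * ν) - (f * f') g =
                f (g * ν) * (f' (g * ν) - f' g) + (f (g * ν) - f g) * f' g := by
              simp only [Pi.mul_apply]; ring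
            rw [e]
            refine (norm_add_le _ _).trans ?_
            rw [norm_mul, norm_mul, add_mul]
            refine add_le_add ?_ ?_
            · rw [mul_assoc]
              exact mul_le_mul (hB _) (hC' m g ν hν) (norm_nonneg _) hB0
            · rw [mul_assoc, mul_comm B', ← mul_assoc]
              exact mul_le_mul (hC m g ν hν) (hB' _) (norm_nonneg _)
                (mul_nonneg hC0 (hlam m).le)
        add_mem' := by
          rintro f f' ⟨⟨B, hB0, hB⟩, C, hC0, hC⟩ ⟨⟨B', hB0', hB'⟩, C', hC0', hC'⟩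
          refine ⟨⟨B + B', by positivity, fun g => ?_⟩, C + C', by positivity,
            fun m g ν hν => ?_⟩
          · exact (norm_add_le _ _).trans (add_le_add (hB g) (hB' g))
          · have e : (f + f') (g * ν) - (f + f') g =
                (f (g * ν) - f g) + (f' (g * ν) - f' g) := by
              simp only [Pi.add_apply]; ring
            rw [e, add_mul]
            exact (norm_add_le _ _).trans (add_le_add (hC m g ν hν) (hC' m g ν hν))
        algebraMap_mem' := by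
          intro r
          refine ⟨⟨‖r‖, norm_nonneg _, fun g => ?_⟩, 0, le_refl _, fun m g ν hν => ?_⟩
          · simp
          · simp }
    have hSent : ∀ i j, (fun g => M g i j) ∈ S := by
      intro i j
      refine ⟨⟨R, hR0, fun g => hR g i j⟩, R, hR0, fun m g ν hν => ?_⟩
      have h1 : LEV.bd ((ℓ : ℝ) ^ m)⁻¹ (M ν - 1) := by
        have := ((hNmem m ν).mp hν 1).1
        simpa using this
      have h2 := LEV.bd_mul hR0 (hlam m).le (hR g) h1
      have h3 : M (g * ν) - M g = M g * (M ν - 1) := by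
        rw [hMmul, mul_sub, mul_one]
      have h4 := h2 i j
      rw [← h3] at h4
      exact h4
    have hle : (Algebra.adjoin K {f : Γ → K | ∃ (v : V) (φ : Module.Dual K V),
        f = fun g => φ (ρ g v)} : Subalgebra K (Γ → K)) ≤ S := by
      refine Algebra.adjoin_le ?_
      rintro f ⟨v, φ, rfl⟩
      have h1 : (fun g => φ (ρ g v)) =
          ∑ j, ∑ i, (b.repr v j * φ (b i)) • (fun g => M g i j) := by
        funext g
        have h2 : ρ g v = ∑ j, ∑ i, (b.repr v j * M g i j) • b i := by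
          conv_lhs => rw [← b.sum_repr v]
          rw [map_sum]
          refine Finset.sum_congr rfl fun j _ => ?_
          rw [map_smul]
          conv_lhs => rw [← b.sum_repr (ρ g (b j))]
          rw [Finset.smul_sum]
          refine Finset.sum_congr rfl fun i _ => ?_
          rw [smul_smul, hMapp]
          rfl
        rw [h2]
        simp only [map_sum, map_smul, smul_eq_mul, Finset.sum_apply, Pi.smul_apply]
        refine Finset.sum_congr rfl fun j _ => Finset.sum_congr rfl fun i _ => ?_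
        ring
      rw [h1]
      exact S.sum_mem fun j _ => S.sum_mem fun i _ => S.smul_mem (hSent i j) _
    intro f hf
    obtain ⟨-, C, -, hC⟩ := hle hf
    exact ⟨C, hC⟩
  · -- powers
    intro m hm g hg
    rw [hNmem] at hg ⊢
    intro h
    have e1 : h * g ^ ℓ * h⁻¹ = (h * g * h⁻¹) ^ ℓ := (conj_pow (i := ℓ)).symm
    have e2 : h * (g ^ ℓ)⁻¹ * h⁻¹ = (h * g⁻¹ * h⁻¹) ^ ℓ := by
      rw [← inv_pow]
      exact (conj_pow (i := ℓ)).symm
    rw [e1, e2]
    exact ⟨hpowℓ m hm _ (hg h).1, hpowℓ m hm _ (hg h).2⟩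
  · -- integrality
    intro g hg k
    have h1 : LEV.bd ((ℓ : ℝ) ^ 1)⁻¹ (M g - 1) := by
      have := ((hNmem 1 g).mp hg 1).1
      simpa using this
    have h2 := hbd1 1 g h1
    rw [← LinearMap.charpoly_toMatrix (ρ g) b]
    exact SUB.charpoly_coeff_le _ h2 k

end MPb685PA
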