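import Pool.Agent.Lib.MP_b685ef_ag.PA.POW
import Pool.Agent.Lib.MP_b685ef_ag.PA.DICH2

/-!
MP_b685ef_ag, power saving for all l: lower bound for the Hankel determinant of the maximal size on
the elements of degree `n` of a coset of `U`: it is at least `c1 n ^ (-e)`.
-/

open MPb685ZO MPb685PS MPb685PS.SUB Finset

namespace MPb685PA

/-- the integers `t` with `ns + m' t = p ^ j n` are different modulo a small power of `ℓ` -/
theorem times_sep {ℓ : ℕ} [hℓ : Fact ℓ.Prime] (p m' : ℕ) (hp : 2 ≤ p)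
    (hpℓ : Nat.Coprime p ℓ) (R k0 : ℕ) (hk0 : p ^ R < ℓ ^ k0) (n : ℕ) (hn : 1 ≤ n) (ns : ℤ)
    (i j : ℕ) (hij : i < j) (hjR : j - i ≤ R) (ti tj : ℤ) (hti : ns + m' * ti = (p : ℤ) ^ i * n)
    (htj : ns + m' * tj = (p : ℤ) ^ j * n) :
    ¬ ((ℓ : ℤ) ^ (padicValNat ℓ n + k0) ∣ tj - ti) := by
  intro hdvd
  set v := padicValNat ℓ n with hv
  have h1 : (m' : ℤ) * (tj - ti) = (p : ℤ) ^ i * ((n : ℤ) * ((p : ℤ) ^ (j - i) - 1)) := by
    have h2 : (p : ℤ) ^ j = (p : ℤ) ^ i * (p : ℤ) ^ (j - i) := by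
      rw [← pow_add, Nat.add_sub_cancel' hij.le]
    rw [h2] at htj
    linear_combination htj - hti
  have h3 : (ℓ : ℤ) ^ (v + k0) ∣ (p : ℤ) ^ i * ((n : ℤ) * ((p : ℤ) ^ (j - i) - 1)) := by
    rw [← h1]
    exact Dvd.dvd.mul_left hdvd _
  have hcop : IsCoprime ((ℓ : ℤ) ^ (v + k0)) ((p : ℤ) ^ i) := by
    apply IsCoprime.pow
    rw [Nat.isCoprime_iff_coprime]
    exact hpℓ.symm
  have h4 := hcop.dvd_of_dvd_mul_left h3
  -- remove `n`
  obtain ⟨n', hn'⟩ : ∃ n', n = ℓ ^ v * n' := (pow_padicValNat_dvd (p := ℓ) (n := n))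
  have hn'ℓ : ¬ ℓ ∣ n' := by
    rintro ⟨c, hc⟩
    have h5 : ℓ ^ (v + 1) ∣ n := ⟨c, by rw [hn', hc, pow_succ]; ring⟩
    have h6 := (padicValNat_dvd_iff_le (p := ℓ) (a := n) (n := v + 1) (by omega)).1 h5
    omega
  have hℓ0 : (0 : ℤ) < (ℓ : ℤ) := by exact_mod_cast hℓ.out.pos
  have h7 : (ℓ : ℤ) ^ k0 ∣ (n' : ℤ) * ((p : ℤ) ^ (j - i) - 1) := by
    have h8 : (ℓ : ℤ) ^ v * (ℓ : ℤ) ^ k0 ∣ (ℓ : ℤ) ^ v * ((n' : ℤ) * ((p : ℤ) ^ (j - i) - 1)) := by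
      have h9 : (n : ℤ) = (ℓ : ℤ) ^ v * n' := by exact_mod_cast hn'
      rw [← pow_add, ← mul_assoc, ← h9]
      exact h4
    exact (mul_dvd_mul_iff_left (pow_ne_zero _ hℓ0.ne')).1 h8
  have hcop2 : IsCoprime ((ℓ : ℤ) ^ k0) (n' : ℤ) := by
    apply IsCoprime.pow_left
    rw [Nat.isCoprime_iff_coprime]
    exact (Nat.Prime.coprime_iff_not_dvd hℓ.out).2 hn'ℓ
  have h10 := hcop2.dvd_of_dvd_mul_left h7
  have hd : 1 ≤ j - i := by omega
  have hpp : (1 : ℤ) < (p : ℤ) ^ (j - i) := by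
    have : 1 < p ^ (j - i) := Nat.one_lt_pow (by omega) (by omega)
    exact_mod_cast this
  have h11 := Int.le_of_dvd (by linarith) h10
  have h12 : (p : ℤ) ^ (j - i) ≤ (p : ℤ) ^ R := by
    have : p ^ (j - i) ≤ p ^ R := Nat.pow_le_pow_right (by omega) hjR
    exact_mod_cast this
  have h13 : (p : ℤ) ^ R < (ℓ : ℤ) ^ k0 := by exact_mod_cast hk0
  linarith

theorem low {ℓ : ℕ} [Fact ℓ.Prime] {K : Type*} [NontriviallyNormedField K]
    [IsUltrametricDist K] (hK : ∀ m : ℤ, ‖(m : K)‖ = ‖(m : ℚ_[ℓ])‖)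
    {Γ : Type*} [Group Γ] {V : Type*} [AddCommGroup V] [Module K V] [FiniteDimensional K V]
    (ρ : Representation K Γ V) (U Γ0 : Subgroup Γ) [U.Normal] [Γ0.Normal] (F : Γ)
    (N : ℕ → Subgroup Γ) (hNn : ∀ m, (N m).Normal)
    (hNℓ : ∀ m, 1 ≤ m → ∀ g ∈ N m, g ^ ℓ ∈ N (m + 1)) (hU : U ≤ N 1)
    (M : ℕ) (hM : 1 ≤ M) (hMU : ∀ g : Γ, g ^ M ∈ U) (r : ℕ) (Cf : ℝ)
    (hlip : ∀ m g, ∀ ν ∈ N m, ‖hank r (ρ (g * ν)) - hank r (ρ g)‖ ≤ Cf * ((ℓ : ℝ) ^ m)⁻¹)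
    (hpw : ∀ (q' : ℕ), 1 ≤ q' → ∀ (x : Γ), nEig (ρ x) ≤ r → ‖hank r (ρ (x ^ q'))‖ ≤ ‖hank r (ρ x)‖)
    (p : ℕ) (hp : 2 ≤ p) (k1 : ℕ) (hpM : p = 1 + M * k1) (hpℓ : Nat.Coprime p ℓ)
    (E : Submodule K (Γ → K))
    (hleft : ∀ f ∈ E, ∀ x : Γ, (fun y => f (x * y)) ∈ E)
    (hfE : (fun g => hank r (ρ g)) ∈ E) {R : ℕ} (hR : 0 < R) (b : Module.Basis (Fin R) K E)
    (m' : ℕ) (hm' : 1 ≤ m') (hmM : m' ∣ M) (z : Γ) (hzU : z ∈ U) (hzF : (F ^ m')⁻¹ * z ∈ Γ0)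
    (hz : ∀ i j, ‖LinearMap.toMatrix b b (tr E hleft z) i j
      - (1 : Matrix (Fin R) (Fin R) K) i j‖ < ((ℓ : ℝ) ^ (R + 1))⁻¹)
    (hs : Γ) (ns : ℤ) (hsF : (F ^ ns)⁻¹ * hs ∈ Γ0)
    (hr : ∀ x, hs⁻¹ * x ∈ U → (∃ a : ℤ, (m' : ℤ) ∣ a - ns ∧ (F ^ a)⁻¹ * x ∈ Γ0) →
      nEig (ρ x) ≤ r) (hne : hank r (ρ hs) ≠ 0)
    (Y : Finset Γ) (L : ℝ) (hL : 0 < L)
    (hYL : ∀ h : Γ, ∀ u ∈ U ⊓ Γ0, ‖hank r (ρ (h * u))‖ ≤ L * ∑ y ∈ Y, ‖hank r (ρ (h * y))‖) :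
    ∃ c1 : ℝ, 0 < c1 ∧ ∀ n : ℕ, 1 ≤ n → (m' : ℤ) ∣ (n : ℤ) - ns → ∀ h : Γ,
      (F ^ n)⁻¹ * h ∈ Γ0 → hs⁻¹ * h ∈ U →
      c1 * ((n : ℝ) ^ (R - 1))⁻¹ ≤ ∑ y ∈ Y, ‖hank r (ρ (h * y))‖ := by
  classical
  have hℓp : ℓ.Prime := Fact.out
  have hl1 : 1 < (ℓ : ℝ) := by exact_mod_cast hℓp.one_lt
  have hl0 : 0 < (ℓ : ℝ) := by linarith
  obtain ⟨k0, hk0⟩ : ∃ k0, p ^ R < ℓ ^ k0 := pow_unbounded_of_one_lt (p ^ R) hℓp.one_lt
  obtain ⟨j0, hj0⟩ : ∃ j0, ns.natAbs < p ^ j0 := pow_unbounded_of_one_lt _ (by omega)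
  set δ := ‖hank r (ρ hs)‖ with hδ
  have hδ0 : 0 < δ := norm_pos_iff.2 hne
  refine ⟨δ / (L * (ℓ : ℝ) ^ (k0 * (R - 1))), by positivity, ?_⟩
  intro n hn hnns h hhF hhU
  set s := ∑ y ∈ Y, ‖hank r (ρ (h * y))‖ with hs'
  have hs0 : 0 ≤ s := Finset.sum_nonneg fun _ _ => norm_nonneg _
  set ε := L * s with hε
  have hε0 : 0 ≤ ε := mul_nonneg hL.le hs0
  have hnpos : (0 : ℝ) < n := by exact_mod_cast hn
  -- images modulo `Γ0` and `U`
  have eh : ((h : Γ) : Γ ⧸ Γ0) = (F : Γ ⧸ Γ0) ^ n := by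
    rw [← QuotientGroup.mk_pow]; exact (QuotientGroup.eq.2 hhF).symm
  have ehs : ((hs : Γ) : Γ ⧸ Γ0) = (F : Γ ⧸ Γ0) ^ ns := by
    rw [← QuotientGroup.mk_zpow]; exact (QuotientGroup.eq.2 hsF).symm
  have ez : ((z : Γ) : Γ ⧸ Γ0) = (F : Γ ⧸ Γ0) ^ m' := by
    rw [← QuotientGroup.mk_pow]; exact (QuotientGroup.eq.2 hzF).symm
  have uh : ((h : Γ) : Γ ⧸ U) = (hs : Γ ⧸ U) := (QuotientGroup.eq.2 hhU).symm
  have uz : ((z : Γ) : Γ ⧸ U) = 1 := (QuotientGroup.eq_one_iff z).2 hzU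
  have uM : ∀ g : Γ, ((g : Γ) : Γ ⧸ U) ^ M = 1 := fun g => by
    rw [← QuotientGroup.mk_pow]; exact (QuotientGroup.eq_one_iff _).2 (hMU g)
  -- powers of `p`
  have hpj : ∀ j : ℕ, ∃ k, p ^ j = 1 + M * k := by
    intro j
    induction j with
    | zero => exact ⟨0, by simp⟩
    | succ j ih =>
      obtain ⟨k, hk⟩ := ih
      refine ⟨k + k1 + M * k * k1, ?_⟩
      rw [pow_succ, hk, hpM]
      ring
  -- smallness on the coset of the power
  have hsmall : ∀ j : ℕ, ∀ v ∈ U ⊓ Γ0, ‖hank r (ρ (h ^ (p ^ j) * v))‖ ≤ ε := by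
    intro j
    obtain ⟨k, hk⟩ := hpj j
    refine pow_small ρ U Γ0 N hNn hNℓ hU M hM hMU r Cf hlip (p ^ j) k hk
      (Nat.Coprime.pow_left j hpℓ) (fun x hx => hpw _ (Nat.one_le_pow _ _ (by omega)) x hx) h ?_ ε hε0 (fun u hu => hYL h u hu)
    intro k v hv
    apply hr
    · rw [← QuotientGroup.eq]
      have h1 : ((v : Γ) : Γ ⧸ U) = 1 := (QuotientGroup.eq_one_iff v).2 hv.1
      rw [QuotientGroup.mk_mul, QuotientGroup.mk_pow, h1, mul_one, pow_add, pow_one, pow_mul,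
        uM, one_pow, mul_one, uh]
    · refine ⟨n * (1 + M * k), ?_, ?_⟩
      · have h2 : (n : ℤ) * (1 + M * k) - ns = (n - ns) + M * (n * k) := by ring
        rw [h2]
        refine dvd_add hnns (Dvd.dvd.mul_right ?_ _)
        exact_mod_cast hmM
      · rw [← QuotientGroup.eq]
        have h1 : ((v : Γ) : Γ ⧸ Γ0) = 1 := (QuotientGroup.eq_one_iff v).2 hv.2
        rw [QuotientGroup.mk_mul, QuotientGroup.mk_pow, h1, mul_one, eh, ← pow_mul,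
          QuotientGroup.mk_zpow, ← zpow_natCast]
        push_cast
        rfl
  -- the times
  have htime : ∀ j : ℕ, ∃ t : ℕ, j0 ≤ j → ns + m' * (t : ℤ) = (p : ℤ) ^ j * n := by
    intro j
    by_cases hj : j0 ≤ j
    · have h1 : (m' : ℤ) ∣ (p : ℤ) ^ j * n - ns := by
        obtain ⟨k, hk⟩ := hpj j
        have h2 : (p : ℤ) ^ j = 1 + M * k := by exact_mod_cast hk
        rw [h2]
        have h3 : (1 + (M : ℤ) * k) * n - ns = (n - ns) + M * (k * n) := by ring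
        rw [h3]
        refine dvd_add hnns (Dvd.dvd.mul_right ?_ _)
        exact_mod_cast hmM
      obtain ⟨t, ht⟩ := h1
      have h4 : ns ≤ (p : ℤ) ^ j * n := by
        have h5 : ns ≤ ns.natAbs := Int.le_natAbs
        have h6 : (ns.natAbs : ℤ) < (p : ℤ) ^ j0 := by exact_mod_cast hj0
        have h7 : (p : ℤ) ^ j0 ≤ (p : ℤ) ^ j := by
          have : p ^ j0 ≤ p ^ j := Nat.pow_le_pow_right (by omega) hj
          exact_mod_cast this
        have h8 : (p : ℤ) ^ j ≤ (p : ℤ) ^ j * n := by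
          have h9 : (1 : ℤ) ≤ n := by exact_mod_cast hn
          have h10 : (0 : ℤ) < (p : ℤ) ^ j := by positivity
          nlinarith
        linarith
      have h11 : 0 ≤ t := by
        by_contra hneg
        push Not at hneg
        have h12 : (1 : ℤ) ≤ m' := by exact_mod_cast hm'
        nlinarith
      obtain ⟨t', rfl⟩ := Int.eq_ofNat_of_zero_le h11
      exact ⟨t', fun _ => by linarith⟩
    · exact ⟨0, fun h => absurd h hj⟩
  choose t ht using htime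
  set k := padicValNat ℓ n + k0 with hk
  have hsep : ∀ i j, j0 ≤ i → i < j → j < j0 + R → ¬ ((ℓ : ℤ) ^ k ∣ (t j : ℤ) - t i) := by
    intro i j hi hij hj
    exact times_sep p m' hp hpℓ R k0 hk0 n hn ns i j hij (by omega) _ _ (ht i hi)
      (ht j (by omega))
  set S : Finset ℕ := (Finset.range R).image (fun i => t (j0 + i)) with hS
  have hinj : Set.InjOn (fun i => t (j0 + i)) (Finset.range R : Set ℕ) := by
    intro a ha c hc hac
    simp only [Finset.coe_range, Set.mem_Iio] at ha hc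
    by_contra hne'
    rcases lt_or_gt_of_ne hne' with hlt | hgt
    · apply hsep (j0 + a) (j0 + c) (by omega) (by omega) (by omega)
      have : (t (j0 + c) : ℤ) - t (j0 + a) = 0 := by
        have h1 : t (j0 + a) = t (j0 + c) := hac
        rw [h1]; ring
      rw [this]
      exact dvd_zero _
    · apply hsep (j0 + c) (j0 + a) (by omega) (by omega) (by omega)
      have : (t (j0 + a) : ℤ) - t (j0 + c) = 0 := by
        have h1 : t (j0 + a) = t (j0 + c) := hac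
        rw [h1]; ring
      rw [this]
      exact dvd_zero _
  have hScard : S.card = R := by
    rw [hS, Finset.card_image_of_injOn hinj, Finset.card_range]
  have hfin := dich2 hK E hleft hR b z hz (fun g => hank r (ρ g)) hfE hs 1 k ε S hScard
    (by
      intro x hx y hy hxy
      rw [hS, Finset.mem_image] at hx hy
      obtain ⟨a, ha, rfl⟩ := hx
      obtain ⟨c, hc, rfl⟩ := hy
      rw [Finset.mem_range] at ha hc
      rcases lt_trichotomy a c with hlt | heq | hgt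
      · intro hd
        apply hsep (j0 + a) (j0 + c) (by omega) (by omega) (by omega)
        have : (t (j0 + c) : ℤ) - t (j0 + a) = -((t (j0 + a) : ℤ) - t (j0 + c)) := by ring
        rw [this]
        exact (dvd_neg).2 hd
      · exact absurd (by rw [heq]) hxy
      · exact hsep (j0 + c) (j0 + a) (by omega) (by omega) (by omega))
    (by
      intro x hx
      rw [hS, Finset.mem_image] at hx
      obtain ⟨a, ha, rfl⟩ := hx
      simp only [mul_one]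
      set j := j0 + a with hj
      have htj := ht j (by omega)
      have h1 : hs * z ^ t j = h ^ (p ^ j) * ((h ^ (p ^ j))⁻¹ * (hs * z ^ t j)) := by
        rw [mul_inv_cancel_left]
      rw [h1]
      apply hsmall j
      constructor
      · show (h ^ (p ^ j))⁻¹ * (hs * z ^ t j) ∈ U
        rw [← QuotientGroup.eq]
        obtain ⟨k, hk⟩ := hpj j
        rw [QuotientGroup.mk_mul, QuotientGroup.mk_pow, QuotientGroup.mk_pow, uz, one_pow,
          mul_one, hk, pow_add, pow_one, pow_mul, uM, one_pow, mul_one, uh]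
      · show (h ^ (p ^ j))⁻¹ * (hs * z ^ t j) ∈ Γ0
        rw [← QuotientGroup.eq]
        rw [QuotientGroup.mk_mul, QuotientGroup.mk_pow, QuotientGroup.mk_pow, ez, eh, ehs,
          ← pow_mul, ← pow_mul, ← zpow_natCast, ← zpow_natCast, ← zpow_add]
        congr 1
        push_cast
        linarith) 0
  simp only [pow_zero, mul_one] at hfin
  -- `ℓ ^ v ≤ n`
  have hv : ((ℓ : ℝ) ^ (padicValNat ℓ n)) ≤ n := by
    have h1 : ℓ ^ (padicValNat ℓ n) ≤ n := Nat.le_of_dvd (by omega) pow_padicValNat_dvd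
    exact_mod_cast h1
  have h2 : (ℓ : ℝ) ^ (k * (R - 1)) ≤ (n : ℝ) ^ (R - 1) * (ℓ : ℝ) ^ (k0 * (R - 1)) := by
    rw [hk, add_mul, pow_add, pow_mul]
    exact mul_le_mul_of_nonneg_right (pow_le_pow_left₀ (by positivity) hv _) (by positivity)
  have h3 : δ ≤ L * s * ((n : ℝ) ^ (R - 1) * (ℓ : ℝ) ^ (k0 * (R - 1))) :=
    hfin.trans (mul_le_mul_of_nonneg_left h2 hε0)
  rw [← div_eq_mul_inv, div_div, div_le_iff₀ (by positivity)]
  calc δ ≤ L * s * ((n : ℝ) ^ (R - 1) * (ℓ : ℝ) ^ (k0 * (R - 1))) := h3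
    _ = s * (L * (ℓ : ℝ) ^ (k0 * (R - 1)) * (n : ℝ) ^ (R - 1)) := by ring

end MPb685PA
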