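import Pool.Agent.Lib.MP_b685ef_ag.PA.LEV2
import Pool.Agent.Lib.MP_b685ef_ag.PS.HKL

/-!
MP_b685ef_ag, power saving for all l: if the Hankel determinant is small on a coset `h U0`, it is
small on the coset `h ^ q' U0`, for suitable `q'`.
-/

open MPb685ZO MPb685PS

namespace MPb685PA

variable {Γ : Type*} [Group Γ]

theorem pow_mem_level {ℓ : ℕ} (N : ℕ → Subgroup Γ) (hNℓ : ∀ m, 1 ≤ m → ∀ g ∈ N m, g ^ ℓ ∈ N (m + 1))
    (g : Γ) (hg : g ∈ N 1) (j : ℕ) : g ^ (ℓ ^ j) ∈ N (j + 1) := by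
  induction j with
  | zero => simpa using hg
  | succ j ih =>
    rw [pow_succ, pow_mul]
    exact hNℓ (j + 1) (by omega) _ ih

theorem exists_inv_mod (q m : ℕ) (hm : 0 < m) (hq : 0 < q) (h : Nat.Coprime q m) :
    ∃ e k : ℕ, q * e = 1 + m * k := by
  obtain ⟨x, y, hxy⟩ : ∃ x y : ℤ, (q : ℤ) * x + m * y = 1 := by
    have h1 := Nat.gcd_eq_gcd_ab q m
    rw [h.gcd_eq_one] at h1
    exact ⟨_, _, by exact_mod_cast h1.symm⟩
  -- make `x` large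
  set e : ℤ := x + m * (|x| + 1) with he
  have hm' : (1 : ℤ) ≤ m := by exact_mod_cast hm
  have hq' : (1 : ℤ) ≤ q := by exact_mod_cast hq
  have hex : 1 ≤ e := by
    have h1 : -|x| ≤ x := neg_abs_le x
    have h2 : (|x| + 1) ≤ m * (|x| + 1) := by nlinarith [abs_nonneg x]
    linarith
  have h3 : (q : ℤ) * e = 1 + m * (q * (|x| + 1) - y) := by
    rw [he]
    linear_combination hxy
  have h4 : 0 ≤ (q : ℤ) * (|x| + 1) - y := by
    by_contra hneg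
    push Not at hneg
    have h5 : (q : ℤ) * e ≤ 0 := by
      rw [h3]
      nlinarith
    nlinarith
  obtain ⟨e', he'⟩ := Int.eq_ofNat_of_zero_le (by linarith : 0 ≤ e)
  obtain ⟨k', hk'⟩ := Int.eq_ofNat_of_zero_le h4
  refine ⟨e', k', ?_⟩
  rw [he', hk'] at h3
  exact_mod_cast h3

theorem pow_small {ℓ : ℕ} [Fact ℓ.Prime] {K : Type*} [NontriviallyNormedField K]
    [IsUltrametricDist K] {V : Type*} [AddCommGroup V] [Module K V] [FiniteDimensional K V]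
    (ρ : Representation K Γ V) (U Γ0 : Subgroup Γ) [U.Normal] [Γ0.Normal]
    (N : ℕ → Subgroup Γ) (hNn : ∀ m, (N m).Normal)
    (hNℓ : ∀ m, 1 ≤ m → ∀ g ∈ N m, g ^ ℓ ∈ N (m + 1)) (hU : U ≤ N 1)
    (M : ℕ) (hM : 1 ≤ M) (hMU : ∀ g : Γ, g ^ M ∈ U) (r : ℕ) (Cf : ℝ)
    (hlip : ∀ m g, ∀ ν ∈ N m, ‖hank r (ρ (g * ν)) - hank r (ρ g)‖ ≤ Cf * ((ℓ : ℝ) ^ m)⁻¹)
    (q' : ℕ) (k1 : ℕ) (hq' : q' = 1 + M * k1) (hq'ℓ : Nat.Coprime q' ℓ)
    (hpw : ∀ x : Γ, nEig (ρ x) ≤ r → ‖hank r (ρ (x ^ q'))‖ ≤ ‖hank r (ρ x)‖)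
    (h : Γ) (hr : ∀ (k : ℕ) (v : Γ), v ∈ U ⊓ Γ0 → nEig (ρ (h ^ (1 + M * k) * v)) ≤ r)
    (ε : ℝ) (hε : 0 ≤ ε) (hsm : ∀ u ∈ U ⊓ Γ0, ‖hank r (ρ (h * u))‖ ≤ ε) :
    ∀ v ∈ U ⊓ Γ0, ‖hank r (ρ (h ^ q' * v))‖ ≤ ε := by
  intro v hv
  have hl1 : 1 < (ℓ : ℝ) := by exact_mod_cast (Fact.out : ℓ.Prime).one_lt
  have hℓpos : 0 < ℓ := (Fact.out : ℓ.Prime).pos
  set U0 : Subgroup Γ := U ⊓ Γ0 with hU0
  have hU0n : U0.Normal := inferInstance
  -- one level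
  have key : ∀ j : ℕ, ‖hank r (ρ (h ^ q' * v))‖ ≤ max ε (Cf * ((ℓ : ℝ) ^ (j + 1))⁻¹) := by
    intro j
    have hcop : Nat.Coprime q' (M * ℓ ^ j) := by
      apply Nat.Coprime.mul_right
      · rw [hq']
        rw [Nat.coprime_add_mul_left_left]
        exact Nat.coprime_one_left M
      · exact Nat.Coprime.pow_right j hq'ℓ
    obtain ⟨e, k, hek⟩ := exists_inv_mod q' (M * ℓ ^ j) (Nat.mul_pos hM (pow_pos hℓpos j))
      (by rw [hq']; omega) hcop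
    set y := h ^ q' * v with hy
    -- `x = y ^ e`
    set v1 : Γ := (h ^ (q' * e))⁻¹ * y ^ e with hv1
    have hv1U : v1 ∈ U0 := by
      rw [hv1, ← QuotientGroup.eq]
      have h1 : ((y : Γ) : Γ ⧸ U0) = ((h ^ q' : Γ) : Γ ⧸ U0) := by
        rw [hy]
        exact (QuotientGroup.eq.2 (by simpa using hv)).symm
      have h2 : ((y ^ e : Γ) : Γ ⧸ U0) = ((y : Γ) : Γ ⧸ U0) ^ e := rfl
      rw [h2, h1, ← QuotientGroup.mk_pow, ← pow_mul]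
    have hx : y ^ e = h ^ (q' * e) * v1 := by rw [hv1, mul_inv_cancel_left]
    have hlev : ∀ g : Γ, ((g ^ M) ^ (ℓ ^ j)) ^ k ∈ N (j + 1) := fun g =>
      (N (j + 1)).pow_mem (pow_mem_level N hNℓ _ (hU (hMU g)) j) k
    have hpowe : ∀ g : Γ, g ^ (q' * e) = g * ((g ^ M) ^ (ℓ ^ j)) ^ k := by
      intro g
      rw [hek, pow_add, pow_one, pow_mul, pow_mul]
    have hNj : (N (j + 1)).Normal := hNn _
    -- `x` is close to `h v1`
    have h2 : ‖hank r (ρ (y ^ e)) - hank r (ρ (h * v1))‖ ≤ Cf * ((ℓ : ℝ) ^ (j + 1))⁻¹ := by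
      have h3 : y ^ e = h * v1 * (v1⁻¹ * ((h ^ M) ^ (ℓ ^ j)) ^ k * v1⁻¹⁻¹) := by
        rw [hx, hpowe h]
        group
      rw [h3]
      exact hlip _ _ _ (hNj.conj_mem _ (hlev h) v1⁻¹)
    have h4 : ‖hank r (ρ (y ^ e))‖ ≤ max ε (Cf * ((ℓ : ℝ) ^ (j + 1))⁻¹) := by
      have h5 : hank r (ρ (y ^ e)) =
          hank r (ρ (h * v1)) + (hank r (ρ (y ^ e)) - hank r (ρ (h * v1))) := by ring
      rw [h5]
      refine (IsUltrametricDist.norm_add_le_max _ _).trans (max_le_max (hsm v1 hv1U) h2)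
    -- the power
    have h6 : nEig (ρ (y ^ e)) ≤ r := by
      have h7 : q' * e = 1 + M * (ℓ ^ j * k) := by rw [hek]; ring
      rw [hx, h7]
      exact hr _ _ hv1U
    have h8 := (hpw _ h6).trans h4
    have h9 : (y ^ e) ^ q' = y * ((y ^ M) ^ (ℓ ^ j)) ^ k := by
      rw [← pow_mul, mul_comm e q', hpowe y]
    rw [h9] at h8
    have h10 := hlip (j + 1) y _ (hlev y)
    have h11 : hank r (ρ y) = hank r (ρ (y * ((y ^ M) ^ (ℓ ^ j)) ^ k)) -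
        (hank r (ρ (y * ((y ^ M) ^ (ℓ ^ j)) ^ k)) - hank r (ρ y)) := by ring
    rw [h11, sub_eq_add_neg]
    refine (IsUltrametricDist.norm_add_le_max _ _).trans (max_le h8 ?_)
    rw [norm_neg]
    exact h10.trans (le_max_right _ _)
  -- the limit
  by_contra hlt
  push Not at hlt
  set B := ‖hank r (ρ (h ^ q' * v))‖ with hB
  have hBpos : 0 < B := lt_of_le_of_lt hε hlt
  have h1 : ∀ j : ℕ, B ≤ Cf * ((ℓ : ℝ) ^ (j + 1))⁻¹ := by
    intro j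
    rcases le_max_iff.1 (key j) with h | h
    · exact absurd h (not_le.2 hlt)
    · exact h
  obtain ⟨j, hj⟩ := pow_unbounded_of_one_lt (Cf / B) hl1
  have h2 := h1 j
  rw [← div_eq_mul_inv, le_div_iff₀ (by positivity)] at h2
  rw [div_lt_iff₀ hBpos] at hj
  have h3 : (ℓ : ℝ) ^ j ≤ (ℓ : ℝ) ^ (j + 1) := pow_le_pow_right₀ hl1.le (by omega)
  nlinarith

end MPb685PA
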