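import Pool.Agent.Lib.MP_b685ef_ag.ZO.FinE

/-!
MP_b685ef_ag, module TRF: an element with the maximal number of eigenvalues for `ρ0` in its coset,
among the elements of a given degree modulo `m'`, has the maximal number of eigenvalues for `ρ` in
a smaller coset.
-/

set_option autoImplicit false

namespace MPb685PA

open MPb685ZO

namespace TRF

section grp

variable {Γ : Type*} [Group Γ] (Γ0 : Subgroup Γ) [Γ0.Normal] (F : Γ) (m : ℕ)

/-- the elements of degree divisible by `m` -/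
def D : Subgroup Γ where
  carrier := {g | ∃ k : ℤ, (F ^ ((m : ℤ) * k))⁻¹ * g ∈ Γ0}
  one_mem' := ⟨0, by simp [Γ0.one_mem]⟩
  mul_mem' := by
    rintro a b ⟨k, hk⟩ ⟨l, hl⟩
    refine ⟨k + l, ?_⟩
    have h1 : (F ^ ((m : ℤ) * (k + l)))⁻¹ * (a * b) =
        ((F ^ ((m : ℤ) * l))⁻¹ * ((F ^ ((m : ℤ) * k))⁻¹ * a) * ((F ^ ((m : ℤ) * l))⁻¹)⁻¹) *
          ((F ^ ((m : ℤ) * l))⁻¹ * b) := by
      rw [mul_add, add_comm, zpow_add]
      group
    rw [h1]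
    exact Γ0.mul_mem (Subgroup.Normal.conj_mem inferInstance _ hk _) hl
  inv_mem' := by
    rintro a ⟨k, hk⟩
    refine ⟨-k, ?_⟩
    have h1 : (F ^ ((m : ℤ) * (-k)))⁻¹ * a⁻¹ =
        (F ^ ((m : ℤ) * k)) * ((F ^ ((m : ℤ) * k))⁻¹ * a)⁻¹ * (F ^ ((m : ℤ) * k))⁻¹ := by
      rw [mul_neg, zpow_neg]
      group
    rw [h1]
    exact Subgroup.Normal.conj_mem inferInstance _ (Γ0.inv_mem hk) _

lemma mem_D (g : Γ) : g ∈ D Γ0 F m ↔ ∃ k : ℤ, (F ^ ((m : ℤ) * k))⁻¹ * g ∈ Γ0 := Iff.rfl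

end grp

section top

variable {Γ : Type*} [Group Γ] [TopologicalSpace Γ] [IsTopologicalGroup Γ]
  (Γ0 : Subgroup Γ) [Γ0.Normal] (F : Γ) (m : ℕ)

/-- the closure of `D` is open -/
lemma isOpen_closure_D (hm : 1 ≤ m) (hF : Dense {g : Γ | ∃ n : ℤ, (F ^ n)⁻¹ * g ∈ Γ0}) :
    IsOpen (((D Γ0 F m).topologicalClosure : Subgroup Γ) : Set Γ) := by
  classical
  set H := (D Γ0 F m).topologicalClosure with hH
  have hHc : IsClosed (H : Set Γ) := (D Γ0 F m).isClosed_topologicalClosure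
  have hm0 : (m : ℤ) ≠ 0 := by exact_mod_cast Nat.pos_iff_ne_zero.1 hm
  have hcov : ∀ g : Γ, ∃ i : Fin m, (F ^ (i : ℕ))⁻¹ * g ∈ H := by
    have hcl : IsClosed (⋃ i : Fin m, {g : Γ | (F ^ (i : ℕ))⁻¹ * g ∈ H}) :=
      isClosed_iUnion_of_finite fun i => hHc.preimage (continuous_const_mul _)
    have hsub : {g : Γ | ∃ n : ℤ, (F ^ n)⁻¹ * g ∈ Γ0} ⊆
        ⋃ i : Fin m, {g : Γ | (F ^ (i : ℕ))⁻¹ * g ∈ H} := by
      rintro g ⟨n, hn⟩
      have h1 : 0 ≤ n % m := Int.emod_nonneg _ hm0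
      have h2 : n % m < m := Int.emod_lt_of_pos _ (by omega)
      have h3 : ((n % m).toNat : ℤ) = n % m := Int.toNat_of_nonneg h1
      refine Set.mem_iUnion.2 ⟨⟨(n % m).toNat, by omega⟩, ?_⟩
      refine (D Γ0 F m).le_topologicalClosure ⟨n / m, ?_⟩
      have h4 : (F ^ ((m : ℤ) * (n / m)))⁻¹ * ((F ^ (n % m).toNat)⁻¹ * g) = (F ^ n)⁻¹ * g := by
        rw [← mul_assoc, ← mul_inv_rev, ← zpow_natCast F (n % m).toNat, h3, ← zpow_add,
          Int.emod_add_mul_ediv]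
      change (F ^ ((m : ℤ) * (n / m)))⁻¹ * ((F ^ (n % m).toNat)⁻¹ * g) ∈ Γ0
      rw [h4]
      exact hn
    intro g
    have h5 := hcl.closure_subset_iff.2 hsub (hF g)
    exact Set.mem_iUnion.1 h5
  have hfin : H.FiniteIndex := by
    have hsurj : Function.Surjective (fun i : Fin m => ((F ^ (i : ℕ) : Γ) : Γ ⧸ H)) := by
      intro q
      obtain ⟨g, rfl⟩ := QuotientGroup.mk_surjective q
      obtain ⟨i, hi⟩ := hcov g
      exact ⟨i, (QuotientGroup.eq).2 hi⟩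
    have : Finite (Γ ⧸ H) := Finite.of_surjective _ hsurj
    exact Subgroup.finiteIndex_of_finite_quotient
  exact H.isOpen_of_isClosed_of_finiteIndex hHc

end top

end TRF

open TRF

theorem specTRF {Γ : Type*} [Group Γ] [TopologicalSpace Γ] [IsTopologicalGroup Γ] [CompactSpace Γ]
    [T2Space Γ] [TotallyDisconnectedSpace Γ] (Γ0 : Subgroup Γ) [Γ0.Normal] (F : Γ)
    (hF : Dense {g : Γ | ∃ n : ℤ, (F ^ n)⁻¹ * g ∈ Γ0})
    {S : ℕ → Type*} (Fr : ∀ n, S n → Γ)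
    (hdense : ∀ (N : Subgroup Γ) [N.Normal], IsOpen (N : Set Γ) → ∀ g : Γ,
      ∃ (n : ℕ) (y : S n), 1 ≤ n ∧ IsConj ((Fr n y : Γ) : Γ ⧸ N) (g : Γ ⧸ N))
    {K0 : Type*} [Field K0] [CharZero K0] [TopologicalSpace K0] [IsTopologicalRing K0] [T2Space K0]
    {V0 : Type*} [AddCommGroup V0] [Module K0 V0] [FiniteDimensional K0 V0]
    (ρ0 : Representation K0 Γ V0)
    (hc0 : ∀ (v : V0) (f : Module.Dual K0 V0), Continuous fun g => f (ρ0 g v))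
    {K : Type*} [Field K] [CharZero K] [TopologicalSpace K] [IsTopologicalRing K] [T2Space K]
    {V : Type*} [AddCommGroup V] [Module K V] [FiniteDimensional K V]
    (ρ : Representation K Γ V)
    (hc : ∀ (v : V) (f : Module.Dual K V), Continuous fun g => f (ρ g v))
    (hz : ∀ n (y : S n), 1 ≤ n → nEig (ρ0 (Fr n y)) = nEig (ρ (Fr n y)))
    (U : Subgroup Γ) [U.Normal] (hU : IsOpen (U : Set Γ)) (m' : ℕ) (hm' : 1 ≤ m') :
    ∃ U2 : Subgroup Γ, U2.Normal ∧ IsOpen (U2 : Set Γ) ∧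
      ∀ (n : ℕ) (y : S n), 1 ≤ n → (F ^ n)⁻¹ * Fr n y ∈ Γ0 →
        (∀ (x : Γ) (a : ℤ), (Fr n y)⁻¹ * x ∈ U → (m' : ℤ) ∣ a - n → (F ^ a)⁻¹ * x ∈ Γ0 →
          nEig (ρ0 x) ≤ nEig (ρ0 (Fr n y))) →
        ∀ u ∈ U2, nEig (ρ (Fr n y * u)) ≤ nEig (ρ (Fr n y)) := by
  classical
  have hHo := isOpen_closure_D Γ0 F m' hm' hF
  set H := (D Γ0 F m').topologicalClosure with hH
  obtain ⟨N2, hN2⟩ := ProfiniteGrp.exist_openNormalSubgroup_sub_open_nhds_of_one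
    (hU.inter hHo) (⟨U.one_mem, H.one_mem⟩ : (1 : Γ) ∈ (U : Set Γ) ∩ (H : Set Γ))
  refine ⟨N2.toSubgroup, N2.isNormal', N2.toOpenSubgroup.isOpen, ?_⟩
  intro n y hn hy hmax u hu
  by_contra hlt
  rw [not_le] at hlt
  set z := nEig (ρ (Fr n y)) with hzdef
  set r := nEig (ρ (Fr n y * u)) with hr
  -- a small coset around `Fr y * u`
  have hO1 : IsOpen {d : Γ | RNK.hk r (ρ (Fr n y * u * d)) ≠ 0} := by
    have h1 : Continuous fun d : Γ => RNK.hk r (ρ (Fr n y * u * d)) :=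
      (MAXF.continuous_hk ρ hc r).comp (continuous_const_mul _)
    exact isOpen_ne.preimage h1
  have hO1one : (1 : Γ) ∈ {d : Γ | RNK.hk r (ρ (Fr n y * u * d)) ≠ 0} := by
    change RNK.hk r (ρ (Fr n y * u * 1)) ≠ 0
    rw [mul_one, hr]
    exact RNK.hk_nEig_ne_zero _
  have hN2o : IsOpen (N2.toSubgroup : Set Γ) := N2.toOpenSubgroup.isOpen
  obtain ⟨N, hN⟩ := ProfiniteGrp.exist_openNormalSubgroup_sub_open_nhds_of_one
    (hO1.inter hN2o) (⟨hO1one, N2.toSubgroup.one_mem⟩ :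
      (1 : Γ) ∈ {d : Γ | RNK.hk r (ρ (Fr n y * u * d)) ≠ 0} ∩ (N2.toSubgroup : Set Γ))
  haveI : N.toSubgroup.Normal := N.isNormal'
  obtain ⟨n', x, hn', hconj⟩ := hdense N.toSubgroup N.toOpenSubgroup.isOpen (Fr n y * u)
  obtain ⟨c, hc1⟩ := isConj_iff.1 hconj
  obtain ⟨b, rfl⟩ := QuotientGroup.mk_surjective c
  set g' := b * Fr n' x * b⁻¹ with hg'
  have hg'N : (Fr n y * u)⁻¹ * g' ∈ N.toSubgroup := by
    rw [← QuotientGroup.eq]
    exact hc1.symm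
  obtain ⟨h3, h4⟩ := hN hg'N
  have h5 : Fr n y * u * ((Fr n y * u)⁻¹ * g') = g' := by group
  have h6 : r ≤ nEig (ρ g') := by
    apply RNK.le_nEig
    have h7 : RNK.hk r (ρ (Fr n y * u * ((Fr n y * u)⁻¹ * g'))) ≠ 0 := h3
    rwa [h5] at h7
  have h8 : nEig (ρ0 g') = nEig (ρ g') := by
    rw [hg', MAXF.nEig_conj, MAXF.nEig_conj, hz n' x hn']
  -- an element of integral degree near `g'`
  set r0 := nEig (ρ0 g') with hr0
  set d0 := (Fr n y)⁻¹ * g' with hd0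
  have hd0N : d0 ∈ N2.toSubgroup := by
    have h9 : d0 = u * ((Fr n y * u)⁻¹ * g') := by rw [hd0]; group
    rw [h9]
    exact N2.toSubgroup.mul_mem hu h4
  obtain ⟨hd0U, hd0H⟩ := hN2 hd0N
  have hO2 : IsOpen ({d : Γ | RNK.hk r0 (ρ0 (Fr n y * d)) ≠ 0} ∩ (U : Set Γ)) := by
    have h1 : Continuous fun d : Γ => RNK.hk r0 (ρ0 (Fr n y * d)) :=
      (MAXF.continuous_hk ρ0 hc0 r0).comp (continuous_const_mul _)
    exact (isOpen_ne.preimage h1).inter hU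
  have hd0O : d0 ∈ ({d : Γ | RNK.hk r0 (ρ0 (Fr n y * d)) ≠ 0} ∩ (U : Set Γ)) := by
    refine ⟨?_, hd0U⟩
    change RNK.hk r0 (ρ0 (Fr n y * d0)) ≠ 0
    rw [hd0, mul_inv_cancel_left, hr0]
    exact RNK.hk_nEig_ne_zero _
  have hcl : d0 ∈ closure ((D Γ0 F m' : Subgroup Γ) : Set Γ) := hd0H
  obtain ⟨d, ⟨hd1, hdU⟩, k, hk⟩ := mem_closure_iff.1 hcl _ hO2 hd0O
  have h10 : r0 ≤ nEig (ρ0 (Fr n y * d)) := RNK.le_nEig hd1
  have h11 := hmax (Fr n y * d) (n + m' * k) (by rwa [inv_mul_cancel_left])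
    ⟨k, by ring⟩ (by
      have h12 : (F ^ ((n : ℤ) + m' * k))⁻¹ * (Fr n y * d) =
          ((F ^ ((m' : ℤ) * k))⁻¹ * ((F ^ n)⁻¹ * Fr n y) * ((F ^ ((m' : ℤ) * k))⁻¹)⁻¹) *
            ((F ^ ((m' : ℤ) * k))⁻¹ * d) := by
        rw [zpow_add, zpow_natCast]
        group
      rw [h12]
      exact Γ0.mul_mem (Subgroup.Normal.conj_mem inferInstance _ hy _) hk)
  rw [hz n y hn] at h11
  omega

end MPb685PA
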